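import Mathlib
import Pool.Agent.R958.HamB

/-!
Bootstrap percolation with threshold three on the four-dimensional Hamming torus: growth from one
open plane, deterministic part.
-/

set_option autoImplicit false

open Finset

namespace Pool.Agent.T6.H62.Ham

open Pool.Agent.R958.Ham

variable {n : ℕ}

lemma dX {x x' : Fin n} (y z w : Fin n) (h : x ≠ x') :
    hammingDist ![x, y, z, w] ![x', y, z, w] = 1 := by
  unfold hammingDist
  rw [card_eq_one]
  refine ⟨0, ?_⟩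
  ext i
  fin_cases i <;> simp [h]

lemma dY {y y' : Fin n} (x z w : Fin n) (h : y ≠ y') :
    hammingDist ![x, y, z, w] ![x, y', z, w] = 1 := by
  unfold hammingDist
  rw [card_eq_one]
  refine ⟨1, ?_⟩
  ext i
  fin_cases i <;> simp [h]

lemma dZ {z z' : Fin n} (x y w : Fin n) (h : z ≠ z') :
    hammingDist ![x, y, z, w] ![x, y, z', w] = 1 := by
  unfold hammingDist
  rw [card_eq_one]
  refine ⟨2, ?_⟩
  ext i
  fin_cases i <;> simp [h]

lemma dW {w w' : Fin n} (x y z : Fin n) (h : w ≠ w') :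
    hammingDist ![x, y, z, w] ![x, y, z, w'] = 1 := by
  unfold hammingDist
  rw [card_eq_one]
  refine ⟨3, ?_⟩
  ext i
  fin_cases i <;> simp [h]

lemma ne_of_coord {v v' : V n 4} (i : Fin 4) (h : v i ≠ v' i) : v ≠ v' :=
  fun he => h (congrFun he i)

/-- closed under the rule of bootstrap percolation with threshold three -/
def Closed3 (F : V n 4 → Prop) : Prop :=
  ∀ v a b c : V n 4, a ≠ b → a ≠ c → b ≠ c → hammingDist v a = 1 → hammingDist v b = 1 →
    hammingDist v c = 1 → F a → F b → F c → F v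

lemma closed_final (e : Equiv.Perm (Fin 4)) (ω : V n 4 → Bool) :
    Closed3 fun v : V n 4 => FinalOpen 3 ω (v ∘ e) := by
  intro v a b c hab hac hbc ha hb hc fa fb fc
  have key : ∀ u u' : V n 4, hammingDist (u ∘ e) (u' ∘ e) = hammingDist u u' := by
    intro u u'
    unfold hammingDist
    apply card_bij (fun i _ => e i)
    · intro i hi
      simpa using hi
    · intro i _ j _ hij
      exact e.injective hij
    · intro j hj
      refine ⟨e.symm j, ?_, by simp⟩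
      simpa using hj
  have inj : ∀ u u' : V n 4, u ≠ u' → u ∘ e ≠ u' ∘ e := by
    intro u u' h he
    apply h
    funext i
    have := congrFun he (e.symm i)
    simpa using this
  exact final_of_three (inj _ _ hab) (inj _ _ hac) (inj _ _ hbc) (by rw [key]; exact ha)
    (by rw [key]; exact hb) (by rw [key]; exact hc) fa fb fc

section grow

variable {F : V n 4 → Prop} (hF : Closed3 F)

include hF

/-- an adjacent plane opens -/
lemma plane_adj {z0 w0 z x1 x2 y1 w' x3 y3 w'' : Fin n} (hz : z ≠ z0) (hP : ∀ x y, F ![x, y, z0, w0])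
    (hx : x1 ≠ x2) (hw' : w' ≠ w0) (hw'' : w'' ≠ w0) (hy : y1 ≠ y3)
    (hu : F ![x1, y1, z, w0]) (hh : F ![x2, y1, z, w']) (hh' : F ![x3, y3, z, w'']) (x y : Fin n) :
    F ![x, y, z, w0] := by
  have hv : F ![x2, y1, z, w0] :=
    hF _ _ _ _ (ne_of_coord 3 (by simpa using hw'.symm)) (ne_of_coord 2 (by simpa using hz))
      (ne_of_coord 2 (by simpa using hz)) (dX y1 z w0 hx.symm) (dW x2 y1 z hw'.symm)
      (dZ x2 y1 w0 hz) hu hh (hP x2 y1)
  have row : ∀ x, F ![x, y1, z, w0] := by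
    intro x
    by_cases e1 : x = x1
    · rw [e1]; exact hu
    by_cases e2 : x = x2
    · rw [e2]; exact hv
    exact hF _ _ _ _ (ne_of_coord 0 (by simpa using hx)) (ne_of_coord 2 (by simpa using hz))
      (ne_of_coord 2 (by simpa using hz)) (dX y1 z w0 e1) (dX y1 z w0 e2) (dZ x y1 w0 hz) hu hv
      (hP x y1)
  have hv' : F ![x3, y3, z, w0] :=
    hF _ _ _ _ (ne_of_coord 3 (by simpa using hw''.symm)) (ne_of_coord 2 (by simpa using hz))
      (ne_of_coord 2 (by simpa using hz)) (dY x3 z w0 hy.symm) (dW x3 y3 z hw''.symm)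
      (dZ x3 y3 w0 hz) (row x3) hh' (hP x3 y3)
  have row' : ∀ x, F ![x, y3, z, w0] := by
    intro x
    by_cases e3 : x = x3
    · rw [e3]; exact hv'
    exact hF _ _ _ _ (ne_of_coord 0 (by simpa using Ne.symm e3)) (ne_of_coord 2 (by simpa using hz))
      (ne_of_coord 2 (by simpa using hz)) (dX y3 z w0 e3) (dY x z w0 hy.symm) (dZ x y3 w0 hz) hv'
      (row x) (hP x y3)
  by_cases e1 : y = y1
  · rw [e1]; exact row x
  by_cases e3 : y = y3
  · rw [e3]; exact row' x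
  exact hF _ _ _ _ (ne_of_coord 1 (by simpa using hy)) (ne_of_coord 2 (by simpa using hz))
    (ne_of_coord 2 (by simpa using hz)) (dY x z w0 e1) (dY x z w0 e3) (dZ x y w0 hz) (row x)
    (row' x) (hP x y)

/-- three parallel planes fill a slice -/
lemma slice_of_planes {z0 z1 z2 w0 : Fin n} (h01 : z0 ≠ z1) (h02 : z0 ≠ z2) (h12 : z1 ≠ z2)
    (h0 : ∀ x y, F ![x, y, z0, w0]) (h1 : ∀ x y, F ![x, y, z1, w0])
    (h2 : ∀ x y, F ![x, y, z2, w0]) (x y z : Fin n) : F ![x, y, z, w0] := by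
  by_cases e0 : z = z0
  · rw [e0]; exact h0 x y
  by_cases e1 : z = z1
  · rw [e1]; exact h1 x y
  by_cases e2 : z = z2
  · rw [e2]; exact h2 x y
  exact hF _ _ _ _ (ne_of_coord 2 (by simpa using h01)) (ne_of_coord 2 (by simpa using h02))
    (ne_of_coord 2 (by simpa using h12)) (dZ x y w0 e0) (dZ x y w0 e1) (dZ x y w0 e2) (h0 x y)
    (h1 x y) (h2 x y)

/-- an adjacent slice opens -/
lemma slice_adj {w0 w x1 y1 x2 y2 z x3 y3 z' : Fin n} (hw : w ≠ w0)
    (hS : ∀ x y z, F ![x, y, z, w0]) (hx : x1 ≠ x2) (hy : y1 ≠ y2) (hz : z' ≠ z)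
    (hu : F ![x1, y1, z, w]) (hv : F ![x2, y2, z, w]) (ht : F ![x3, y3, z', w]) (x y z'' : Fin n) :
    F ![x, y, z'', w] := by
  have h12 : F ![x1, y2, z, w] :=
    hF _ _ _ _ (ne_of_coord 0 (by simpa using hx)) (ne_of_coord 3 (by simpa using hw))
      (ne_of_coord 3 (by simpa using hw)) (dY x1 z w hy.symm) (dX y2 z w hx)
      (dW x1 y2 z hw) hu hv (hS x1 y2 z)
  have h21 : F ![x2, y1, z, w] :=
    hF _ _ _ _ (ne_of_coord 0 (by simpa using hx)) (ne_of_coord 3 (by simpa using hw))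
      (ne_of_coord 3 (by simpa using hw)) (dX y1 z w hx.symm) (dY x2 z w hy)
      (dW x2 y1 z hw) hu hv (hS x2 y1 z)
  have row1 : ∀ x, F ![x, y1, z, w] := by
    intro x
    by_cases e1 : x = x1
    · rw [e1]; exact hu
    by_cases e2 : x = x2
    · rw [e2]; exact h21
    exact hF _ _ _ _ (ne_of_coord 0 (by simpa using hx)) (ne_of_coord 3 (by simpa using hw))
      (ne_of_coord 3 (by simpa using hw)) (dX y1 z w e1) (dX y1 z w e2) (dW x y1 z hw) hu h21
      (hS x y1 z)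
  have row2 : ∀ x, F ![x, y2, z, w] := by
    intro x
    by_cases e1 : x = x1
    · rw [e1]; exact h12
    by_cases e2 : x = x2
    · rw [e2]; exact hv
    exact hF _ _ _ _ (ne_of_coord 0 (by simpa using hx)) (ne_of_coord 3 (by simpa using hw))
      (ne_of_coord 3 (by simpa using hw)) (dX y2 z w e1) (dX y2 z w e2) (dW x y2 z hw) h12 hv
      (hS x y2 z)
  have pl : ∀ x y, F ![x, y, z, w] := by
    intro x y
    by_cases e1 : y = y1
    · rw [e1]; exact row1 x
    by_cases e2 : y = y2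
    · rw [e2]; exact row2 x
    exact hF _ _ _ _ (ne_of_coord 1 (by simpa using hy)) (ne_of_coord 3 (by simpa using hw))
      (ne_of_coord 3 (by simpa using hw)) (dY x z w e1) (dY x z w e2) (dW x y z hw) (row1 x)
      (row2 x) (hS x y z)
  have row3 : ∀ x, F ![x, y3, z', w] := by
    intro x
    by_cases e3 : x = x3
    · rw [e3]; exact ht
    exact hF _ _ _ _ (ne_of_coord 2 (by simpa using hz)) (ne_of_coord 3 (by simpa using hw))
      (ne_of_coord 3 (by simpa using hw)) (dX y3 z' w e3) (dZ x y3 w hz) (dW x y3 z' hw) ht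
      (pl x y3) (hS x y3 z')
  have pl' : ∀ x y, F ![x, y, z', w] := by
    intro x y
    by_cases e3 : y = y3
    · rw [e3]; exact row3 x
    exact hF _ _ _ _ (ne_of_coord 2 (by simpa using hz)) (ne_of_coord 3 (by simpa using hw))
      (ne_of_coord 3 (by simpa using hw)) (dY x z' w e3) (dZ x y w hz) (dW x y z' hw) (row3 x)
      (pl x y) (hS x y z')
  by_cases e1 : z'' = z
  · rw [e1]; exact pl x y
  by_cases e2 : z'' = z'
  · rw [e2]; exact pl' x y
  exact hF _ _ _ _ (ne_of_coord 2 (by simpa using hz.symm)) (ne_of_coord 3 (by simpa using hw))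
    (ne_of_coord 3 (by simpa using hw)) (dZ x y w e1) (dZ x y w e2) (dW x y z'' hw) (pl x y)
    (pl' x y) (hS x y z'')

/-- three parallel slices fill the torus -/
lemma all_of_slices {w0 w1 w2 : Fin n} (h01 : w0 ≠ w1) (h02 : w0 ≠ w2) (h12 : w1 ≠ w2)
    (h0 : ∀ x y z, F ![x, y, z, w0]) (h1 : ∀ x y z, F ![x, y, z, w1])
    (h2 : ∀ x y z, F ![x, y, z, w2]) (v : V n 4) : F v := by
  have hv : v = ![v 0, v 1, v 2, v 3] := by
    funext i
    fin_cases i <;> rfl
  rw [hv]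
  by_cases e0 : v 3 = w0
  · rw [e0]; exact h0 _ _ _
  by_cases e1 : v 3 = w1
  · rw [e1]; exact h1 _ _ _
  by_cases e2 : v 3 = w2
  · rw [e2]; exact h2 _ _ _
  exact hF _ _ _ _ (ne_of_coord 3 (by simpa using h01)) (ne_of_coord 3 (by simpa using h02))
    (ne_of_coord 3 (by simpa using h12)) (dW _ _ _ e0) (dW _ _ _ e1) (dW _ _ _ e2) (h0 _ _ _)
    (h1 _ _ _) (h2 _ _ _)

end grow

/-- lower half of the coordinates -/
def lo (n : ℕ) : Finset (Fin n) := univ.filter fun i => i.val < n / 2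

/-- upper half of the coordinates -/
def up (n : ℕ) : Finset (Fin n) := univ.filter fun i => n / 2 ≤ i.val

lemma lo_ne_up {x x' : Fin n} (h : x ∈ lo n) (h' : x' ∈ up n) : x ≠ x' := by
  rintro rfl
  simp only [lo, up, mem_filter, mem_univ, true_and] at h h'
  omega

/-- the sufficient conditions for the growth from the plane with last coordinates `z0`, `w0` -/
structure Good (η : V n 4 → Prop) (z0 w0 w1 w2 : Fin n) : Prop where
  a : ∃ z ∈ (lo n).erase z0, ∃ y ∈ lo n, (∃ x ∈ lo n, η ![x, y, z, w0]) ∧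
    ∃ x ∈ up n, ∃ w ∈ univ.erase w0, η ![x, y, z, w]
  b : ∃ z ∈ (up n).erase z0, ∃ y ∈ lo n, (∃ x ∈ lo n, η ![x, y, z, w0]) ∧
    ∃ x ∈ up n, ∃ w ∈ univ.erase w0, η ![x, y, z, w]
  c : ∀ z : Fin n, ∃ x : Fin n, ∃ y ∈ up n, ∃ w ∈ univ.erase w0, η ![x, y, z, w]
  d1 : ∃ z ∈ lo n, (∃ x ∈ lo n, ∃ y ∈ lo n, η ![x, y, z, w1]) ∧
    ∃ x ∈ up n, ∃ y ∈ up n, η ![x, y, z, w1]
  e1 : ∃ z ∈ up n, ∃ x y : Fin n, η ![x, y, z, w1]
  d2 : ∃ z ∈ lo n, (∃ x ∈ lo n, ∃ y ∈ lo n, η ![x, y, z, w2]) ∧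
    ∃ x ∈ up n, ∃ y ∈ up n, η ![x, y, z, w2]
  e2 : ∃ z ∈ up n, ∃ x y : Fin n, η ![x, y, z, w2]

theorem grow {F : V n 4 → Prop} (hF : Closed3 F) {η : V n 4 → Prop} (hη : ∀ v, η v → F v)
    {z0 w0 w1 w2 : Fin n} (hP : ∀ x y, F ![x, y, z0, w0]) (h1 : w1 ≠ w0) (h2 : w2 ≠ w0)
    (h12 : w1 ≠ w2) (hG : Good η z0 w0 w1 w2) (v : V n 4) : F v := by
  have hplane : ∀ z ≠ z0, (∃ y ∈ lo n, (∃ x ∈ lo n, η ![x, y, z, w0]) ∧
      ∃ x ∈ up n, ∃ w ∈ univ.erase w0, η ![x, y, z, w]) → ∀ x y, F ![x, y, z, w0] := by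
    rintro z hz ⟨y1, hy1, ⟨x1, hx1, hu⟩, x2, hx2, w', hw', hh⟩
    obtain ⟨x3, y3, hy3, w'', hw'', hh'⟩ := hG.c z
    exact plane_adj hF hz hP (lo_ne_up hx1 hx2) (ne_of_mem_erase hw') (ne_of_mem_erase hw'')
      (lo_ne_up hy1 hy3) (hη _ hu) (hη _ hh) (hη _ hh')
  have hslice : ∀ w ≠ w0, (∀ x y z, F ![x, y, z, w0]) →
      (∃ z ∈ lo n, (∃ x ∈ lo n, ∃ y ∈ lo n, η ![x, y, z, w]) ∧
        ∃ x ∈ up n, ∃ y ∈ up n, η ![x, y, z, w]) →
      (∃ z ∈ up n, ∃ x y : Fin n, η ![x, y, z, w]) → ∀ x y z, F ![x, y, z, w] := by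
    rintro w hw hS ⟨z, hz, ⟨x1, hx1, y1, hy1, hu⟩, x2, hx2, y2, hy2, hv⟩ ⟨z', hz', x3, y3, ht⟩
    exact slice_adj hF hw hS (lo_ne_up hx1 hx2) (lo_ne_up hy1 hy2) (lo_ne_up hz hz').symm
      (hη _ hu) (hη _ hv) (hη _ ht)
  obtain ⟨z1, hz1, hc1⟩ := hG.a
  obtain ⟨z2, hz2, hc2⟩ := hG.b
  have q1 := hplane z1 (ne_of_mem_erase hz1) hc1
  have q2 := hplane z2 (ne_of_mem_erase hz2) hc2
  have hS := slice_of_planes hF (ne_of_mem_erase hz1).symm (ne_of_mem_erase hz2).symm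
    (lo_ne_up (mem_of_mem_erase hz1) (mem_of_mem_erase hz2)) hP q1 q2
  have s1 := hslice w1 h1 hS hG.d1 hG.e1
  have s2 := hslice w2 h2 hS hG.d2 hG.e2
  exact all_of_slices hF h1.symm h2.symm h12 hS s1 s2 v

lemma exists_perm : ∀ J : Finset (Fin 4), J.card = 2 →
    ∃ e : Equiv.Perm (Fin 4), ∀ k, k ∈ J ↔ (e k = 0 ∨ e k = 1) := by
  decide

/-- the whole torus is finally open if a plane is, and the sprinkled configuration is good -/
theorem full_of_good {ω η : V n 4 → Bool} (e : Equiv.Perm (Fin 4)) {J : Finset (Fin 4)}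
    (he : ∀ k, k ∈ J ↔ (e k = 0 ∨ e k = 1)) {a : V n 4}
    (hω : ∀ x : V n 4, (∀ k, k ∉ J → x k = a k) → FinalOpen 3 ω x)
    (hsub : ∀ v, FinalOpen 3 ω v → FinalOpen 3 (fun x => ω x || η x) v) {w1 w2 : Fin n}
    (h1 : w1 ≠ a (e.symm 3)) (h2 : w2 ≠ a (e.symm 3)) (h12 : w1 ≠ w2)
    (hG : Good (fun v => η (v ∘ e) = true) (a (e.symm 2)) (a (e.symm 3)) w1 w2) :
    SubgraphOpen 3 4 (fun x => ω x || η x) := by
  have hall := grow (closed_final e (fun x => ω x || η x)) (η := fun v => η (v ∘ e) = true)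
    (fun v hv => final_of_init (by simp [hv])) (z0 := a (e.symm 2)) (w0 := a (e.symm 3))
    (fun x y => by
      apply hsub
      apply hω
      intro k hk
      rw [he] at hk
      push Not at hk
      obtain ⟨h0, h1'⟩ := hk
      have h23 : e k = 2 ∨ e k = 3 := by
        generalize e k = m at h0 h1'
        fin_cases m <;> simp_all
      rcases h23 with h | h
      · have : k = e.symm 2 := by rw [← h]; simp
        rw [← this]
        simp [h, this]
      · have : k = e.symm 3 := by rw [← h]; simp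
        rw [← this]
        simp [h, this]) h1 h2 h12 hG
  refine ⟨univ, by simp, a, fun x _ => ?_⟩
  have := hall (x ∘ e.symm)
  have hx : (x ∘ e.symm) ∘ e = x := by
    funext i
    simp
  rw [hx] at this
  exact this

end Pool.Agent.T6.H62.Ham
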