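import Mathlib
import Pool.Agent.R958.HamC
import Pool.Agent.T6.H62.HamGrow

/-!
Bootstrap percolation on Hamming tori: monotonicity and unions of independent configurations.
-/

set_option autoImplicit false

open Finset MeasureTheory ProbabilityTheory
open scoped ENNReal

namespace Pool.Agent.T6.H62.Ham

open Pool.Agent.R958.Ham

variable {n d : ℕ}

lemma iter_mono_config {θ : ℕ} {ω ω' : V n d → Bool} (h : ∀ x, ω x = true → ω' x = true) (j : ℕ) :
    ∀ x, (step θ)^[j] ω x = true → (step θ)^[j] ω' x = true := by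
  induction j with
  | zero => exact h
  | succ j ih =>
    intro x hx
    rw [Function.iterate_succ_apply', step, Bool.or_eq_true] at hx
    rw [Function.iterate_succ_apply', step, Bool.or_eq_true]
    rcases hx with hx | hx
    · exact Or.inl (ih x hx)
    · right
      rw [decide_eq_true_iff] at hx ⊢
      refine hx.trans (card_le_card ?_)
      intro w hw
      rw [mem_filter] at hw ⊢
      exact ⟨hw.1, hw.2.1, ih w hw.2.2⟩

lemma final_mono {θ : ℕ} {ω ω' : V n d → Bool} (h : ∀ x, ω x = true → ω' x = true) {v : V n d}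
    (hv : FinalOpen θ ω v) : FinalOpen θ ω' v := by
  obtain ⟨j, hj⟩ := hv
  exact ⟨j, iter_mono_config h j v hj⟩

lemma sub_mono {θ i : ℕ} {ω ω' : V n d → Bool} (h : ∀ x, ω x = true → ω' x = true)
    (hv : SubgraphOpen θ i ω) : SubgraphOpen θ i ω' := by
  obtain ⟨J, hJ, a, ha⟩ := hv
  exact ⟨J, hJ, a, fun x hx => final_mono h (ha x hx)⟩

/-- the union of two configurations -/
def orc (ω η : V n d → Bool) : V n d → Bool := fun x => ω x || η x

lemma siteLaw_or {p p' : ℝ} (h0 : 0 ≤ p) (h1 : p ≤ 1) (h0' : 0 ≤ p') (h1' : p' ≤ 1) :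
    ((siteLaw p).prod (siteLaw p')).map (fun z : Bool × Bool => z.1 || z.2) =
      siteLaw (1 - (1 - p) * (1 - p')) := by
  have e1 : siteLaw (1 - (1 - p) * (1 - p')) = ENNReal.ofReal (1 - (1 - p) * (1 - p')) •
      Measure.dirac true + ENNReal.ofReal ((1 - p) * (1 - p')) • Measure.dirac false := by
    rw [siteLaw]
    congr 3
    ring
  have := siteLaw_prob h0 h1
  have := siteLaw_prob h0' h1'
  have hprob : IsProbabilityMeasure (siteLaw (1 - (1 - p) * (1 - p'))) :=
    siteLaw_prob (by nlinarith) (by nlinarith)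
  have hprob' : IsProbabilityMeasure
      (((siteLaw p).prod (siteLaw p')).map (fun z : Bool × Bool => z.1 || z.2)) :=
    Measure.isProbabilityMeasure_map (measurable_of_countable _).aemeasurable
  have hf : ((siteLaw p).prod (siteLaw p')).map (fun z : Bool × Bool => z.1 || z.2) {false} =
      siteLaw (1 - (1 - p) * (1 - p')) {false} := by
    rw [Measure.map_apply (measurable_of_countable _) (measurableSet_singleton _)]
    have e2 : (fun z : Bool × Bool => z.1 || z.2) ⁻¹' {false} = {false} ×ˢ {false} := by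
      ext ⟨a, b⟩
      simp
    rw [e2, Measure.prod_prod, siteLaw_false, siteLaw_false, siteLaw_false,
      ← ENNReal.ofReal_mul (by linarith)]
    congr 1
    ring
  refine Measure.ext_of_singleton (fun b => ?_)
  cases b
  · exact hf
  · have e3 : ({true} : Set Bool) = {false}ᶜ := by
      ext b; cases b <;> simp
    rw [e3, prob_compl_eq_one_sub (measurableSet_singleton _),
      prob_compl_eq_one_sub (measurableSet_singleton _), hf]

theorem law_or {p p' : ℝ} (h0 : 0 ≤ p) (h1 : p ≤ 1) (h0' : 0 ≤ p') (h1' : p' ≤ 1) :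
    ((law n d p).prod (law n d p')).map (fun z => orc z.1 z.2) =
      law n d (1 - (1 - p) * (1 - p')) := by
  have := siteLaw_prob h0 h1
  have := siteLaw_prob h0' h1'
  have hprob : IsProbabilityMeasure (siteLaw (1 - (1 - p) * (1 - p'))) :=
    siteLaw_prob (by nlinarith) (by nlinarith)
  have h2 := (measurePreserving_arrowProdEquivProdArrow Bool Bool (V n d) (fun _ => siteLaw p)
    (fun _ => siteLaw p')).map_eq
  unfold law
  rw [← h2, Measure.map_map (measurable_of_countable _) (MeasurableEquiv.measurable _)]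
  have h3 := Measure.pi_map_pi (μ := fun _ : V n d => (siteLaw p).prod (siteLaw p'))
    (f := fun _ (z : Bool × Bool) => z.1 || z.2) (fun _ => (measurable_of_countable _).aemeasurable)
  simp_rw [siteLaw_or h0 h1 h0' h1'] at h3
  rw [← h3]
  rfl

lemma law_or_apply {p p' : ℝ} (h0 : 0 ≤ p) (h1 : p ≤ 1) (h0' : 0 ≤ p') (h1' : p' ≤ 1)
    (A : Set (V n d → Bool)) : law n d (1 - (1 - p) * (1 - p')) A =
      ∫⁻ ω, law n d p' {η | orc ω η ∈ A} ∂(law n d p) := by
  have := siteLaw_prob h0 h1
  have := siteLaw_prob h0' h1'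
  have : IsProbabilityMeasure (law n d p) := by unfold law; infer_instance
  have : IsProbabilityMeasure (law n d p') := by unfold law; infer_instance
  rw [← law_or h0 h1 h0' h1', Measure.map_apply (measurable_of_countable _)
    (Set.toFinite _).measurableSet, Measure.prod_apply (Set.toFinite _).measurableSet]
  rfl

/-- increasing events -/
def Incr (A : Set (V n d → Bool)) : Prop :=
  ∀ ω ω' : V n d → Bool, (∀ x, ω x = true → ω' x = true) → ω ∈ A → ω' ∈ A

lemma law_prob {p : ℝ} (h0 : 0 ≤ p) (h1 : p ≤ 1) : IsProbabilityMeasure (law n d p) := by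
  have := siteLaw_prob h0 h1
  unfold law; infer_instance

/-- sprinkling: if after the first configuration is in `N` the second completes it to `A` with
probability at least `c` -/
lemma law_sprinkle {p p' : ℝ} (h0 : 0 ≤ p) (h1 : p ≤ 1) (h0' : 0 ≤ p') (h1' : p' ≤ 1)
    {A N : Set (V n d → Bool)} {c : ℝ≥0∞}
    (h : ∀ ω ∈ N, c ≤ law n d p' {η | orc ω η ∈ A}) :
    c * law n d p N ≤ law n d (1 - (1 - p) * (1 - p')) A := by
  rw [law_or_apply h0 h1 h0' h1']
  calc c * law n d p N = ∫⁻ ω in N, c ∂(law n d p) := by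
        rw [setLIntegral_const]
    _ ≤ ∫⁻ ω in N, law n d p' {η | orc ω η ∈ A} ∂(law n d p) :=
        setLIntegral_mono (measurable_of_countable _) (fun ω hω => h ω hω)
    _ ≤ _ := setLIntegral_le_lintegral _ _

lemma law_mono {A : Set (V n d → Bool)} (hA : Incr A) {p q : ℝ} (h0 : 0 ≤ p) (hpq : p ≤ q)
    (hq : q ≤ 1) : law n d p A ≤ law n d q A := by
  rcases hpq.eq_or_lt with rfl | hlt
  · exact le_rfl
  have hp1 : 0 < 1 - p := by linarith
  set p' := (q - p) / (1 - p) with hp'
  have h0' : 0 ≤ p' := div_nonneg (by linarith) hp1.le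
  have h1' : p' ≤ 1 := by rw [hp', div_le_one hp1]; linarith
  have e : 1 - (1 - p) * (1 - p') = q := by
    rw [hp']; field_simp; ring
  have hpr := law_prob (n := n) (d := d) h0' h1'
  have := law_sprinkle (n := n) (d := d) h0 (by linarith : p ≤ 1) h0' h1' (A := A) (N := A) (c := 1)
    (fun ω hω => by
      have : {η | orc ω η ∈ A} = Set.univ := by
        ext η
        simp only [Set.mem_ofPred_eq, Set.mem_univ, iff_true]
        exact hA ω _ (fun x hx => by simp [orc, hx]) hω
      rw [this, measure_univ])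
  rw [one_mul, e] at this
  exact this

lemma law_strict {A : Set (V n d → Bool)} (hA : Incr A) (hA1 : (fun _ => true) ∈ A) {p q : ℝ}
    (h0 : 0 ≤ p) (hpq : p < q) (hq : q ≤ 1) (hlt : law n d p A < 1) :
    law n d p A < law n d q A := by
  have hp1 : 0 < 1 - p := by linarith
  set p' := (q - p) / (1 - p) with hp'
  have h0p : 0 < p' := div_pos (by linarith) hp1
  have h1' : p' ≤ 1 := by rw [hp', div_le_one hp1]; linarith
  have e : 1 - (1 - p) * (1 - p') = q := by
    rw [hp']; field_simp; ring
  have hpr := law_prob (n := n) (d := d) h0p.le h1'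
  have hpr0 := law_prob (n := n) (d := d) h0 (by linarith : p ≤ 1)
  have h2 := law_or_apply (n := n) (d := d) h0 (by linarith : p ≤ 1) h0p.le h1' A
  rw [e] at h2
  rw [h2, ← lintegral_add_compl _ (Set.toFinite A).measurableSet]
  have h3 : law n d p A ≤ ∫⁻ ω in A, law n d p' {η | orc ω η ∈ A} ∂(law n d p) := by
    calc law n d p A = ∫⁻ ω in A, 1 ∂(law n d p) := by rw [setLIntegral_const, one_mul]
      _ ≤ _ := setLIntegral_mono (measurable_of_countable _) (fun ω hω => by
        have : {η | orc ω η ∈ A} = Set.univ := by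
          ext η
          simp only [Set.mem_ofPred_eq, Set.mem_univ, iff_true]
          exact hA ω _ (fun x hx => by simp [orc, hx]) hω
        rw [this, measure_univ])
  set c : ℝ≥0∞ := law n d p' {η | ∀ x ∈ (univ : Finset (V n d)), η x = true} with hc
  have hc0 : 0 < c := by
    rw [hc, law_all h0p.le h1']
    exact ENNReal.pow_pos (ENNReal.ofReal_pos.2 h0p) _
  have h4 : c * law n d p Aᶜ ≤ ∫⁻ ω in Aᶜ, law n d p' {η | orc ω η ∈ A} ∂(law n d p) := by
    calc c * law n d p Aᶜ = ∫⁻ ω in Aᶜ, c ∂(law n d p) := by rw [setLIntegral_const]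
      _ ≤ _ := setLIntegral_mono (measurable_of_countable _) (fun ω _ => by
        apply measure_mono
        intro η hη
        refine hA _ _ ?_ hA1
        intro x _
        simp [orc, hη x (mem_univ x)])
  have h5 : 0 < law n d p Aᶜ := by
    rw [prob_compl_eq_one_sub (Set.toFinite A).measurableSet]
    exact tsub_pos_of_lt hlt
  have h6 : 0 < c * law n d p Aᶜ := ENNReal.mul_pos hc0.ne' h5.ne'
  calc law n d p A < law n d p A + c * law n d p Aᶜ :=
        ENNReal.lt_add_right (measure_ne_top _ _) h6.ne'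
    _ ≤ _ := add_le_add h3 h4

lemma incr_sub (θ i : ℕ) : Incr {ω : V n d → Bool | SubgraphOpen θ i ω} :=
  fun _ _ h hω => sub_mono h hω

lemma all_sub {θ i : ℕ} (hi : i ≤ d) (a : V n d) :
    (fun _ => true) ∈ {ω : V n d → Bool | SubgraphOpen θ i ω} := by
  obtain ⟨J, _, hJ⟩ := exists_subset_card_eq (s := (univ : Finset (Fin d))) (n := i)
    (by rw [card_univ, Fintype.card_fin]; exact hi)
  exact ⟨J, hJ, a, fun x _ => final_of_init rfl⟩

lemma crit_unique {θ i : ℕ} (hi : i ≤ d) (a : V n d) {p q : ℝ} (hp : IsCritical n d θ i p)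
    (hq : IsCritical n d θ i q) : p = q := by
  by_contra hne
  rcases lt_or_gt_of_ne hne with h | h
  · have := law_strict (incr_sub θ i) (all_sub hi a) hp.1 h hq.2.1 (by
      rw [hp.2.2]; exact ENNReal.half_lt_self one_ne_zero ENNReal.one_ne_top)
    rw [hp.2.2, hq.2.2] at this
    exact lt_irrefl _ this
  · have := law_strict (incr_sub θ i) (all_sub hi a) hq.1 h hp.2.1 (by
      rw [hq.2.2]; exact ENNReal.half_lt_self one_ne_zero ENNReal.one_ne_top)
    rw [hp.2.2, hq.2.2] at this
    exact lt_irrefl _ this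

lemma crit_le {θ i k : ℕ} (hik : i ≤ k) (hk : k ≤ d) (a : V n d) {p q : ℝ}
    (hp : IsCritical n d θ i p) (hq : IsCritical n d θ k q) : p ≤ q := by
  by_contra hlt
  rw [not_le] at hlt
  have hsub : {ω : V n d → Bool | SubgraphOpen θ k ω} ⊆ {ω | SubgraphOpen θ i ω} := by
    rintro ω ⟨J, hJ, b, hb⟩
    obtain ⟨I, hI, hIc⟩ := exists_subset_card_eq (s := J) (n := i) (by omega)
    exact ⟨I, hIc, b, fun x hx => hb x (fun m hm => hx m (fun hmI => hm (hI hmI)))⟩
  have h1 : (1 / 2 : ℝ≥0∞) ≤ law n d q {ω | SubgraphOpen θ i ω} := by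
    rw [← hq.2.2]; exact measure_mono hsub
  have hle := law_mono (incr_sub (n := n) (d := d) θ i) hq.1 hlt.le hp.2.1
  rw [hp.2.2] at hle
  have := law_strict (incr_sub θ i) (all_sub (by omega) a) hq.1 hlt hp.2.1 (lt_of_le_of_lt hle
    (ENNReal.half_lt_self one_ne_zero ENNReal.one_ne_top))
  rw [hp.2.2] at this
  exact absurd (lt_of_le_of_lt h1 this) (lt_irrefl _)

end Pool.Agent.T6.H62.Ham
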