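import Mathlib
import Pool.Agent.T6.H62.HamProb

/-!
Bootstrap percolation on Hamming tori: probability bounds for families of independent cells.
-/

set_option autoImplicit false

open Finset MeasureTheory ProbabilityTheory
open scoped ENNReal

namespace Pool.Agent.T6.H62.Ham

open Pool.Agent.R958.Ham

variable {n d : ℕ} {p : ℝ}

lemma law_no (h0 : 0 ≤ p) (h1 : p ≤ 1) (K : Finset (V n d)) :
    law n d p {ω | ∀ x ∈ K, ω x = false} = ENNReal.ofReal (1 - p) ^ K.card := by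
  classical
  have := siteLaw_prob h0 h1
  have e : {ω : V n d → Bool | ∀ x ∈ K, ω x = false} =
      Set.pi Set.univ (fun x => if x ∈ K then {false} else Set.univ) := by
    ext ω
    simp only [Set.mem_ofPred_eq, Set.mem_pi, Set.mem_univ, true_implies]
    refine forall_congr' fun x => ?_
    by_cases hx : x ∈ K <;> simp [hx]
  rw [law, e, Measure.pi_pi]
  have h2 : ∀ x : V n d, siteLaw p (if x ∈ K then {false} else Set.univ) =
      if x ∈ K then ENNReal.ofReal (1 - p) else 1 := by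
    intro x
    split_ifs
    · exact siteLaw_false
    · exact measure_univ
  simp_rw [h2]
  rw [prod_ite_mem]
  simp

lemma law_inter (h0 : 0 ≤ p) (h1 : p ≤ 1) {S T : Finset (V n d)} (hST : Disjoint S T)
    {A B : Set (V n d → Bool)} (hA : Dep S (fun ω => ω ∈ A)) (hB : Dep T (fun ω => ω ∈ B)) :
    law n d p (A ∩ B) = law n d p A * law n d p B := by
  have := siteLaw_prob h0 h1
  have hind : IndepFun (fun ω : V n d → Bool => ω ∈ A) (fun ω => ω ∈ B) (law n d p) :=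
    Dep.indep (m := fun _ => siteLaw p) hST hA hB
  rw [indepFun_iff_measure_inter_preimage_eq_mul] at hind
  have h3 := hind {True} {True} (measurableSet_singleton _) (measurableSet_singleton _)
  have e1 : (fun ω : V n d → Bool => ω ∈ A) ⁻¹' {True} = A := by ext ω; simp
  have e2 : (fun ω : V n d → Bool => ω ∈ B) ⁻¹' {True} = B := by ext ω; simp
  rw [e1, e2] at h3
  exact h3

lemma law_indep_all (h0 : 0 ≤ p) (h1 : p ≤ 1) {ι : Type*} {T : Finset ι}
    {S : ι → Finset (V n d)} {E : ι → Set (V n d → Bool)}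
    (hE : ∀ t ∈ T, Dep (S t) (fun ω => ω ∈ E t))
    (hdisj : ∀ t ∈ T, ∀ t' ∈ T, t ≠ t' → Disjoint (S t) (S t')) :
    law n d p {ω | ∀ t ∈ T, ω ∈ E t} = ∏ t ∈ T, law n d p (E t) := by
  classical
  have hprob := law_prob (n := n) (d := d) h0 h1
  induction T using Finset.induction_on with
  | empty => simp
  | insert t T ht ih =>
    have ih' := ih (fun b hb => hE b (mem_insert_of_mem hb))
      (fun b hb b' hb' => hdisj b (mem_insert_of_mem hb) b' (mem_insert_of_mem hb'))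
    have e : {ω : V n d → Bool | ∀ b ∈ insert t T, ω ∈ E b} = E t ∩ {ω | ∀ b ∈ T, ω ∈ E b} := by
      ext ω; simp
    have d2 : Dep (T.biUnion S) (fun ω : V n d → Bool => ω ∈ {ω | ∀ b ∈ T, ω ∈ E b}) := by
      intro ω ω' h
      rw [eq_iff_iff]
      refine forall₂_congr fun b hb => ?_
      have := hE b (mem_insert_of_mem hb) ω ω' (fun x hx => h x (mem_biUnion.2 ⟨b, hb, hx⟩))
      simp only at this
      rw [this]
    have hdis : Disjoint (S t) (T.biUnion S) := by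
      rw [disjoint_biUnion_right]
      intro b' hb'
      exact hdisj t (mem_insert_self _ _) b' (mem_insert_of_mem hb') (fun h => ht (h ▸ hb'))
    rw [e, law_inter h0 h1 hdis (hE t (mem_insert_self _ _)) d2, ih', prod_insert ht]

lemma one_sub_pow_nonneg (h0 : 0 ≤ p) (h1 : p ≤ 1) (m : ℕ) : 0 ≤ 1 - (1 - p) ^ m := by
  have : (1 - p) ^ m ≤ 1 := pow_le_one₀ (by linarith) (by linarith)
  linarith

lemma law_exists (h0 : 0 ≤ p) (h1 : p ≤ 1) (K : Finset (V n d)) :
    law n d p {ω | ∃ x ∈ K, ω x = true} = ENNReal.ofReal (1 - (1 - p) ^ K.card) := by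
  have hprob := law_prob (n := n) (d := d) h0 h1
  have e : {ω : V n d → Bool | ∃ x ∈ K, ω x = true} = {ω | ∀ x ∈ K, ω x = false}ᶜ := by
    ext ω
    simp
  have h2 : ENNReal.ofReal (1 - (1 - p) ^ K.card) = 1 - ENNReal.ofReal (1 - p) ^ K.card := by
    have h3 : (0 : ℝ) ≤ (1 - p) ^ K.card := pow_nonneg (by linarith) _
    have h4 := ENNReal.ofReal_sub 1 h3
    rw [h4, ENNReal.ofReal_one, ENNReal.ofReal_pow (by linarith)]
  rw [e, prob_compl_eq_one_sub (Set.toFinite _).measurableSet, law_no h0 h1, h2]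

lemma dep_exists (K : Finset (V n d)) :
    Dep K (fun ω : V n d → Bool => ω ∈ {ω | ∃ x ∈ K, ω x = true}) := by
  intro ω ω' h
  rw [eq_iff_iff]
  constructor
  · rintro ⟨x, hx, hxt⟩
    exact ⟨x, hx, by rw [← h x hx]; exact hxt⟩
  · rintro ⟨x, hx, hxt⟩
    exact ⟨x, hx, by rw [h x hx]; exact hxt⟩

lemma law_pair (h0 : 0 ≤ p) (h1 : p ≤ 1) {K1 K2 : Finset (V n d)} (hd : Disjoint K1 K2) {m1 m2 : ℕ}
    (hm1 : m1 ≤ K1.card) (hm2 : m2 ≤ K2.card) :
    law n d p {ω | ¬ ((∃ x ∈ K1, ω x = true) ∧ ∃ x ∈ K2, ω x = true)} ≤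
      ENNReal.ofReal (1 - (1 - (1 - p) ^ m1) * (1 - (1 - p) ^ m2)) := by
  have hprob := law_prob (n := n) (d := d) h0 h1
  have e : {ω : V n d → Bool | ¬ ((∃ x ∈ K1, ω x = true) ∧ ∃ x ∈ K2, ω x = true)} =
      ({ω | ∃ x ∈ K1, ω x = true} ∩ {ω | ∃ x ∈ K2, ω x = true})ᶜ := by
    ext ω; rfl
  rw [e, prob_compl_eq_one_sub (Set.toFinite _).measurableSet,
    law_inter h0 h1 hd (dep_exists K1) (dep_exists K2), law_exists h0 h1, law_exists h0 h1,
    ← ENNReal.ofReal_mul (one_sub_pow_nonneg h0 h1 _), ← ENNReal.ofReal_one,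
    ← ENNReal.ofReal_sub _ (mul_nonneg (one_sub_pow_nonneg h0 h1 _) (one_sub_pow_nonneg h0 h1 _))]
  apply ENNReal.ofReal_le_ofReal
  have a1 : (1 - p) ^ K1.card ≤ (1 - p) ^ m1 :=
    pow_le_pow_of_le_one (by linarith) (by linarith) hm1
  have a2 : (1 - p) ^ K2.card ≤ (1 - p) ^ m2 :=
    pow_le_pow_of_le_one (by linarith) (by linarith) hm2
  have b1 := one_sub_pow_nonneg h0 h1 m1
  have b2 := one_sub_pow_nonneg h0 h1 m2
  have : (1 - (1 - p) ^ m1) * (1 - (1 - p) ^ m2) ≤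
      (1 - (1 - p) ^ K1.card) * (1 - (1 - p) ^ K2.card) :=
    mul_le_mul (by linarith) (by linarith) b2 (by linarith)
  linarith

theorem law_cells (h0 : 0 ≤ p) (h1 : p ≤ 1) {ι : Type*} (lab : V n d → ι) (T : Finset ι)
    (K1 K2 : ι → Finset (V n d)) (hl1 : ∀ t ∈ T, ∀ x ∈ K1 t, lab x = t)
    (hl2 : ∀ t ∈ T, ∀ x ∈ K2 t, lab x = t) (hd : ∀ t ∈ T, Disjoint (K1 t) (K2 t)) {m1 m2 : ℕ}
    (hm1 : ∀ t ∈ T, m1 ≤ (K1 t).card) (hm2 : ∀ t ∈ T, m2 ≤ (K2 t).card) :
    law n d p {ω | ¬ ∃ t ∈ T, (∃ x ∈ K1 t, ω x = true) ∧ ∃ x ∈ K2 t, ω x = true} ≤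
      ENNReal.ofReal (Real.exp (-(T.card * ((1 - (1 - p) ^ m1) * (1 - (1 - p) ^ m2))))) := by
  classical
  have e : {ω : V n d → Bool | ¬ ∃ t ∈ T, (∃ x ∈ K1 t, ω x = true) ∧ ∃ x ∈ K2 t, ω x = true} =
      {ω | ∀ t ∈ T, ω ∈ {ω | ¬ ((∃ x ∈ K1 t, ω x = true) ∧ ∃ x ∈ K2 t, ω x = true)}} := by
    ext ω
    simp only [Set.mem_ofPred_eq]
    push Not
    rfl
  rw [e, law_indep_all h0 h1 (S := fun t => K1 t ∪ K2 t)]
  · calc ∏ t ∈ T, law n d p {ω | ¬ ((∃ x ∈ K1 t, ω x = true) ∧ ∃ x ∈ K2 t, ω x = true)}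
        ≤ ∏ _t ∈ T, ENNReal.ofReal (1 - (1 - (1 - p) ^ m1) * (1 - (1 - p) ^ m2)) :=
          prod_le_prod' fun t ht => law_pair h0 h1 (hd t ht) (hm1 t ht) (hm2 t ht)
      _ = ENNReal.ofReal (1 - (1 - (1 - p) ^ m1) * (1 - (1 - p) ^ m2)) ^ T.card := by
          rw [prod_const]
      _ ≤ ENNReal.ofReal (Real.exp (-((1 - (1 - p) ^ m1) * (1 - (1 - p) ^ m2)))) ^ T.card := by
          gcongr
          have := Real.one_sub_le_exp_neg ((1 - (1 - p) ^ m1) * (1 - (1 - p) ^ m2))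
          exact this
      _ = _ := by
          rw [← ENNReal.ofReal_pow (Real.exp_pos _).le, ← Real.exp_nat_mul]
          congr 2
          ring
  · intro t _ ω ω' h
    rw [eq_iff_iff]
    refine not_congr (and_congr ?_ ?_)
    · have := dep_exists (K1 t) ω ω' (fun x hx => h x (mem_union_left _ hx))
      rw [eq_iff_iff] at this
      exact this
    · have := dep_exists (K2 t) ω ω' (fun x hx => h x (mem_union_right _ hx))
      rw [eq_iff_iff] at this
      exact this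
  · intro t ht t' ht' hne
    rw [disjoint_left]
    intro x hx hx'
    apply hne
    have a : lab x = t := by
      rcases mem_union.1 hx with h | h
      · exact hl1 t ht x h
      · exact hl2 t ht x h
    have b : lab x = t' := by
      rcases mem_union.1 hx' with h | h
      · exact hl1 t' ht' x h
      · exact hl2 t' ht' x h
    rw [← a, b]

lemma law_none_open (h0 : 0 ≤ p) (h1 : p ≤ 1) {K : Finset (V n d)} {m : ℕ} (hm : m ≤ K.card) :
    law n d p {ω | ¬ ∃ x ∈ K, ω x = true} ≤ ENNReal.ofReal (Real.exp (-(m * p))) := by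
  have e : {ω : V n d → Bool | ¬ ∃ x ∈ K, ω x = true} = {ω | ∀ x ∈ K, ω x = false} := by
    ext ω; simp
  rw [e, law_no h0 h1, ← ENNReal.ofReal_pow (by linarith)]
  apply ENNReal.ofReal_le_ofReal
  calc (1 - p) ^ K.card ≤ (1 - p) ^ m := pow_le_pow_of_le_one (by linarith) (by linarith) hm
    _ ≤ (Real.exp (-p)) ^ m := pow_le_pow_left₀ (by linarith) (Real.one_sub_le_exp_neg _) _
    _ = _ := by
        rw [← Real.exp_nat_mul]
        congr 1
        ring

lemma half_le (h0 : 0 ≤ p) (h1 : p ≤ 1) {p0 : ℝ} (hp0 : 0 ≤ p0) (hp : p0 ≤ p) {m : ℕ}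
    (hm : m * p0 ≤ 1) : m * p0 / 2 ≤ 1 - (1 - p) ^ m := by
  have a1 : (1 - p) ^ m ≤ (1 - p0) ^ m := pow_le_pow_left₀ (by linarith) (by linarith) _
  have a2 : (1 - p0) ^ m ≤ (Real.exp (-p0)) ^ m :=
    pow_le_pow_left₀ (by linarith) (Real.one_sub_le_exp_neg _) _
  have a3 : (Real.exp (-p0)) ^ m = Real.exp (-(m * p0)) := by
    rw [← Real.exp_nat_mul]
    congr 1
    ring
  have a4 : Real.exp (-(m * p0)) ≤ 1 - m * p0 / 2 := by
    have hx : 0 ≤ (m : ℝ) * p0 := by positivity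
    set x := (m : ℝ) * p0
    rw [Real.exp_neg]
    have h2 : 1 + x ≤ Real.exp x := by linarith [Real.add_one_le_exp x]
    have h3 : (Real.exp x)⁻¹ ≤ (1 + x)⁻¹ := inv_anti₀ (by linarith) h2
    refine h3.trans ?_
    rw [inv_le_comm₀ (by linarith) (by linarith)]
    rw [inv_le_iff_one_le_mul₀ (by linarith)]
    nlinarith
  linarith

end Pool.Agent.T6.H62.Ham
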