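import Mathlib
import Pool.Agent.T6.H62.HamCells

/-!
Bootstrap percolation with threshold three on the four-dimensional Hamming torus: the sprinkled
configuration is good with high probability.
-/

set_option autoImplicit false

open Finset MeasureTheory ProbabilityTheory
open scoped ENNReal

namespace Pool.Agent.T6.H62.Ham

open Pool.Agent.R958.Ham

variable {n : ℕ} {p p0 : ℝ}

lemma card_lo (n : ℕ) : (lo n).card = n / 2 := by
  unfold lo
  rw [Fin.card_filter_val_lt]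
  omega

lemma card_up (n : ℕ) : (up n).card = n - n / 2 := by
  have h : (lo n).card + (up n).card = n := by
    unfold lo up
    have := card_filter_add_card_filter_not (s := (univ : Finset (Fin n))) (fun i => i.val < n / 2)
    simp only [not_lt, card_univ, Fintype.card_fin] at this
    exact this
  rw [card_lo] at h
  omega

lemma card_er (w : Fin n) : ((univ : Finset (Fin n)).erase w).card = n - 1 := by
  rw [card_erase_of_mem (mem_univ _), card_univ, Fintype.card_fin]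

lemma half_ge (hn : 4 ≤ n) : (n : ℝ) / 3 ≤ ((n / 2 : ℕ) : ℝ) := by
  have h : n ≤ 3 * (n / 2) := by omega
  have : (n : ℝ) ≤ 3 * ((n / 2 : ℕ) : ℝ) := by exact_mod_cast h
  linarith

lemma half_le' (n : ℕ) : ((n / 2 : ℕ) : ℝ) ≤ (n : ℝ) / 2 := Nat.cast_div_le

lemma sub_one_ge (hn : 4 ≤ n) : (n : ℝ) / 2 ≤ ((n - 1 : ℕ) : ℝ) := by
  have h : n ≤ 2 * (n - 1) := by omega
  have : (n : ℝ) ≤ 2 * ((n - 1 : ℕ) : ℝ) := by exact_mod_cast h
  linarith

lemma sub_one_le (n : ℕ) : ((n - 1 : ℕ) : ℝ) ≤ (n : ℝ) := by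
  exact_mod_cast Nat.sub_le n 1

lemma erase_ge (hn : 4 ≤ n) {s : Finset (Fin n)} (hs : n / 2 ≤ s.card) (z : Fin n) :
    (n : ℝ) / 6 ≤ ((s.erase z).card : ℝ) := by
  have h1 : s.card - 1 ≤ (s.erase z).card := pred_card_le_card_erase
  have h : n ≤ 6 * (s.erase z).card := by omega
  have : (n : ℝ) ≤ 6 * ((s.erase z).card : ℝ) := by exact_mod_cast h
  linarith

lemma comp_inj (e : Equiv.Perm (Fin 4)) {u v : V n 4} (h : u ∘ e = v ∘ e) : u = v := by
  funext i
  have := congrFun h (e.symm i)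
  simpa using this

lemma comp_symm (e : Equiv.Perm (Fin 4)) (u : V n 4) : (u ∘ e) ∘ e.symm = u := by
  funext i; simp

theorem law_ab (hn : 4 ≤ n) (h0 : 0 ≤ p) (h1 : p ≤ 1) (hp0 : 0 ≤ p0) (hp : p0 ≤ p)
    (hsm : (n : ℝ) ^ 2 * p0 ≤ 1) (e : Equiv.Perm (Fin 4)) (Z : Finset (Fin n))
    (hZ : (n : ℝ) / 6 ≤ (Z.card : ℝ)) (w0 : Fin n) :
    law n 4 p {η | ¬ ∃ z ∈ Z, ∃ y ∈ lo n, (∃ x ∈ lo n, η (![x, y, z, w0] ∘ e) = true) ∧
      ∃ x ∈ up n, ∃ w ∈ univ.erase w0, η (![x, y, z, w] ∘ e) = true} ≤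
      ENNReal.ofReal (Real.exp (-((n : ℝ) ^ 5 * p0 ^ 2 / 1296))) := by
  classical
  have hn' : (4 : ℝ) ≤ n := by exact_mod_cast hn
  have hmain := law_cells (n := n) (d := 4) h0 h1
    (fun u => (((u ∘ e.symm) 2, (u ∘ e.symm) 1) : Fin n × Fin n)) (Z ×ˢ lo n)
    (fun t => (lo n).image (fun x => ![x, t.2, t.1, w0] ∘ e))
    (fun t => (up n ×ˢ univ.erase w0).image (fun q => ![q.1, t.2, t.1, q.2] ∘ e))
    (by
      intro t _ x hx
      obtain ⟨x', _, rfl⟩ := mem_image.1 hx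
      simp only [comp_symm]
      simp)
    (by
      intro t _ x hx
      obtain ⟨x', _, rfl⟩ := mem_image.1 hx
      simp only [comp_symm]
      simp)
    (by
      intro t _
      rw [disjoint_left]
      intro x hx hx'
      obtain ⟨x1, _, rfl⟩ := mem_image.1 hx
      obtain ⟨q, hq, hq'⟩ := mem_image.1 hx'
      have := congrFun (comp_inj e hq') 3
      simp only [Matrix.cons_val] at this
      exact ne_of_mem_erase (mem_product.1 hq).2 this)
    (m1 := n / 2) (m2 := (n / 2) * (n - 1))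
    (by
      intro t _
      rw [card_image_of_injective, card_lo]
      intro x x' hxx
      have := congrFun (comp_inj e hxx) 0
      simpa using this)
    (by
      intro t _
      rw [card_image_of_injective, card_product, card_up, card_er]
      · gcongr
        omega
      · intro x x' hxx
        have h00 := congrFun (comp_inj e hxx) 0
        have h03 := congrFun (comp_inj e hxx) 3
        simp only [Matrix.cons_val, Matrix.cons_val_zero] at h00 h03
        exact Prod.ext h00 h03)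
  have hset : {η : V n 4 → Bool | ¬ ∃ z ∈ Z, ∃ y ∈ lo n,
      (∃ x ∈ lo n, η (![x, y, z, w0] ∘ e) = true) ∧
      ∃ x ∈ up n, ∃ w ∈ univ.erase w0, η (![x, y, z, w] ∘ e) = true} =
      {ω : V n 4 → Bool | ¬ ∃ t ∈ Z ×ˢ lo n,
        (∃ x ∈ (lo n).image (fun x => ![x, t.2, t.1, w0] ∘ e), ω x = true) ∧
        ∃ x ∈ (up n ×ˢ univ.erase w0).image (fun q => ![q.1, t.2, t.1, q.2] ∘ e), ω x = true} := by
    ext η
    simp only [Set.mem_ofPred_eq, not_iff_not]
    constructor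
    · rintro ⟨z, hz, y, hy, ⟨x, hx, hx'⟩, x2, hx2, w, hw, hw'⟩
      exact ⟨(z, y), mem_product.2 ⟨hz, hy⟩, ⟨_, mem_image_of_mem _ hx, hx'⟩,
        ⟨_, mem_image_of_mem _ (mem_product.2 ⟨hx2, hw⟩ : (x2, w) ∈ _), hw'⟩⟩
    · rintro ⟨⟨z, y⟩, ht, ⟨u, hu, hu'⟩, u2, hu2, hu2'⟩
      obtain ⟨x, hx, rfl⟩ := mem_image.1 hu
      obtain ⟨⟨x2, w⟩, hx2, rfl⟩ := mem_image.1 hu2
      exact ⟨z, (mem_product.1 ht).1, y, (mem_product.1 ht).2, ⟨x, hx, hu'⟩,
        x2, (mem_product.1 hx2).1, w, (mem_product.1 hx2).2, hu2'⟩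
  rw [hset]
  refine hmain.trans (ENNReal.ofReal_le_ofReal (Real.exp_le_exp.2 (neg_le_neg ?_)))
  have m0 := half_ge hn
  have m0' := half_le' n
  have k0 := sub_one_ge hn
  have k0' := sub_one_le n
  have e1 : ((n / 2 : ℕ) : ℝ) * p0 ≤ 1 := by
    have : ((n / 2 : ℕ) : ℝ) ≤ (n : ℝ) ^ 2 := by nlinarith
    exact (mul_le_mul_of_nonneg_right this hp0).trans hsm
  have e2 : (((n / 2) * (n - 1) : ℕ) : ℝ) * p0 ≤ 1 := by
    have : (((n / 2) * (n - 1) : ℕ) : ℝ) ≤ (n : ℝ) ^ 2 := by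
      push_cast
      nlinarith
    exact (mul_le_mul_of_nonneg_right this hp0).trans hsm
  have f1 := half_le h0 h1 hp0 hp e1
  have f2 := half_le h0 h1 hp0 hp e2
  have g1 : (n : ℝ) * p0 / 6 ≤ 1 - (1 - p) ^ (n / 2) := by
    refine le_trans ?_ f1
    nlinarith
  have g2 : (n : ℝ) ^ 2 * p0 / 12 ≤ 1 - (1 - p) ^ (n / 2 * (n - 1)) := by
    refine le_trans ?_ f2
    have : (n : ℝ) ^ 2 / 6 ≤ (((n / 2) * (n - 1) : ℕ) : ℝ) := by
      push_cast
      nlinarith
    nlinarith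
  have gc : (n : ℝ) ^ 2 / 18 ≤ ((Z ×ˢ lo n).card : ℝ) := by
    rw [card_product, card_lo]
    push_cast
    nlinarith
  calc (n : ℝ) ^ 5 * p0 ^ 2 / 1296 = (n : ℝ) ^ 2 / 18 * ((n : ℝ) * p0 / 6 * ((n : ℝ) ^ 2 * p0 / 12)) := by
        ring
    _ ≤ ((Z ×ˢ lo n).card : ℝ) *
        ((1 - (1 - p) ^ (n / 2)) * (1 - (1 - p) ^ (n / 2 * (n - 1)))) := by
        apply mul_le_mul gc (mul_le_mul g1 g2 (by positivity) ?_) (by positivity) (by positivity)
        exact le_trans (by positivity) g1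

theorem law_c (hn : 4 ≤ n) (h0 : 0 ≤ p) (h1 : p ≤ 1) (hp0 : 0 ≤ p0) (hp : p0 ≤ p)
    (e : Equiv.Perm (Fin 4)) (w0 : Fin n) :
    law n 4 p {η | ¬ ∀ z : Fin n, ∃ x : Fin n, ∃ y ∈ up n, ∃ w ∈ univ.erase w0,
      η (![x, y, z, w] ∘ e) = true} ≤
      ENNReal.ofReal (n * Real.exp (-((n : ℝ) ^ 3 * p0 / 6))) := by
  classical
  have hn' : (4 : ℝ) ≤ n := by exact_mod_cast hn
  have hset : {η : V n 4 → Bool | ¬ ∀ z : Fin n, ∃ x : Fin n, ∃ y ∈ up n, ∃ w ∈ univ.erase w0,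
      η (![x, y, z, w] ∘ e) = true} ⊆
      ⋃ z : Fin n, {η : V n 4 → Bool | ¬ ∃ x ∈ ((univ : Finset (Fin n)) ×ˢ (up n ×ˢ univ.erase w0)).image
        (fun q => ![q.1, q.2.1, z, q.2.2] ∘ e), η x = true} := by
    intro η hη
    simp only [Set.mem_ofPred_eq] at hη
    push Not at hη
    obtain ⟨z, hz⟩ := hη
    rw [Set.mem_iUnion]
    refine ⟨z, ?_⟩
    rintro ⟨u, hu, hu'⟩
    obtain ⟨⟨x, y, w⟩, hq, rfl⟩ := mem_image.1 hu
    rw [mem_product, mem_product] at hq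
    exact hz x y hq.2.1 w hq.2.2 hu'
  refine (measure_mono hset).trans ?_
  refine (measure_iUnion_fintype_le _ _).trans ?_
  calc ∑ z : Fin n, law n 4 p {η : V n 4 → Bool | ¬ ∃ x ∈ ((univ : Finset (Fin n)) ×ˢ
        (up n ×ˢ univ.erase w0)).image (fun q => ![q.1, q.2.1, z, q.2.2] ∘ e), η x = true}
      ≤ ∑ _z : Fin n, ENNReal.ofReal (Real.exp (-((n : ℝ) ^ 3 * p0 / 6))) := by
        refine sum_le_sum fun z _ => ?_
        refine (law_none_open h0 h1 (m := n * ((n / 2) * (n - 1))) ?_).trans ?_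
        · rw [card_image_of_injective, card_product, card_product, card_up, card_er, card_univ,
            Fintype.card_fin]
          · gcongr
            omega
          · intro q q' hq
            have i0 := congrFun (comp_inj e hq) 0
            have i1 := congrFun (comp_inj e hq) 1
            have i3 := congrFun (comp_inj e hq) 3
            simp only [Matrix.cons_val, Matrix.cons_val_zero, Matrix.cons_val_one] at i0 i1 i3
            exact Prod.ext i0 (Prod.ext i1 i3)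
        · apply ENNReal.ofReal_le_ofReal
          apply Real.exp_le_exp.2
          apply neg_le_neg
          have m0 := half_ge hn
          have k0 := sub_one_ge hn
          have : (n : ℝ) ^ 3 / 6 ≤ ((n * ((n / 2) * (n - 1)) : ℕ) : ℝ) := by
            push_cast
            have : (n : ℝ) ^ 2 / 6 ≤ ((n / 2 : ℕ) : ℝ) * ((n - 1 : ℕ) : ℝ) := by nlinarith
            nlinarith
          have h3 : (n : ℝ) ^ 3 / 6 * p0 ≤ ((n * ((n / 2) * (n - 1)) : ℕ) : ℝ) * p :=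
            mul_le_mul this hp hp0 (by positivity)
          linarith
    _ = _ := by
        rw [sum_const, card_univ, Fintype.card_fin, nsmul_eq_mul,
          ENNReal.ofReal_mul (by positivity), ENNReal.ofReal_natCast]

theorem law_d (hn : 4 ≤ n) (h0 : 0 ≤ p) (h1 : p ≤ 1) (hp0 : 0 ≤ p0) (hp : p0 ≤ p)
    (hsm : (n : ℝ) ^ 2 * p0 ≤ 1) (e : Equiv.Perm (Fin 4)) (w1 : Fin n) :
    law n 4 p {η | ¬ ∃ z ∈ lo n, (∃ x ∈ lo n, ∃ y ∈ lo n, η (![x, y, z, w1] ∘ e) = true) ∧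
      ∃ x ∈ up n, ∃ y ∈ up n, η (![x, y, z, w1] ∘ e) = true} ≤
      ENNReal.ofReal (Real.exp (-((n : ℝ) ^ 5 * p0 ^ 2 / 1296))) := by
  classical
  have hn' : (4 : ℝ) ≤ n := by exact_mod_cast hn
  have hmain := law_cells (n := n) (d := 4) h0 h1
    (fun u => (((u ∘ e.symm) 2) : Fin n)) (lo n)
    (fun t => (lo n ×ˢ lo n).image (fun q => ![q.1, q.2, t, w1] ∘ e))
    (fun t => (up n ×ˢ up n).image (fun q => ![q.1, q.2, t, w1] ∘ e))
    (by
      intro t _ x hx
      obtain ⟨x', _, rfl⟩ := mem_image.1 hx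
      simp only [comp_symm]
      simp)
    (by
      intro t _ x hx
      obtain ⟨x', _, rfl⟩ := mem_image.1 hx
      simp only [comp_symm]
      simp)
    (by
      intro t _
      rw [disjoint_left]
      intro x hx hx'
      obtain ⟨q1, hq1, rfl⟩ := mem_image.1 hx
      obtain ⟨q, hq, hq'⟩ := mem_image.1 hx'
      have := congrFun (comp_inj e hq') 0
      simp only [Matrix.cons_val_zero] at this
      exact lo_ne_up (mem_product.1 hq1).1 (mem_product.1 hq).1 this.symm)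
    (m1 := (n / 2) * (n / 2)) (m2 := (n / 2) * (n / 2))
    (by
      intro t _
      rw [card_image_of_injective, card_product, card_lo]
      intro x x' hxx
      have h00 := congrFun (comp_inj e hxx) 0
      have h03 := congrFun (comp_inj e hxx) 1
      simp only [Matrix.cons_val_zero, Matrix.cons_val_one] at h00 h03
      exact Prod.ext h00 h03)
    (by
      intro t _
      rw [card_image_of_injective, card_product, card_up]
      · have : n / 2 ≤ n - n / 2 := by omega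
        exact Nat.mul_le_mul this this
      · intro x x' hxx
        have h00 := congrFun (comp_inj e hxx) 0
        have h03 := congrFun (comp_inj e hxx) 1
        simp only [Matrix.cons_val_zero, Matrix.cons_val_one] at h00 h03
        exact Prod.ext h00 h03)
  have hset : {η : V n 4 → Bool | ¬ ∃ z ∈ lo n,
      (∃ x ∈ lo n, ∃ y ∈ lo n, η (![x, y, z, w1] ∘ e) = true) ∧
      ∃ x ∈ up n, ∃ y ∈ up n, η (![x, y, z, w1] ∘ e) = true} =
      {ω : V n 4 → Bool | ¬ ∃ t ∈ lo n,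
        (∃ x ∈ (lo n ×ˢ lo n).image (fun q => ![q.1, q.2, t, w1] ∘ e), ω x = true) ∧
        ∃ x ∈ (up n ×ˢ up n).image (fun q => ![q.1, q.2, t, w1] ∘ e), ω x = true} := by
    ext η
    simp only [Set.mem_ofPred_eq, not_iff_not]
    constructor
    · rintro ⟨z, hz, ⟨x, hx, y, hy, h⟩, x2, hx2, y2, hy2, h2⟩
      exact ⟨z, hz, ⟨_, mem_image_of_mem _ (mem_product.2 ⟨hx, hy⟩ : (x, y) ∈ _), h⟩,
        ⟨_, mem_image_of_mem _ (mem_product.2 ⟨hx2, hy2⟩ : (x2, y2) ∈ _), h2⟩⟩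
    · rintro ⟨z, ht, ⟨u, hu, hu'⟩, u2, hu2, hu2'⟩
      obtain ⟨⟨x, y⟩, hx, rfl⟩ := mem_image.1 hu
      obtain ⟨⟨x2, y2⟩, hx2, rfl⟩ := mem_image.1 hu2
      exact ⟨z, ht, ⟨x, (mem_product.1 hx).1, y, (mem_product.1 hx).2, hu'⟩,
        x2, (mem_product.1 hx2).1, y2, (mem_product.1 hx2).2, hu2'⟩
  rw [hset]
  refine hmain.trans (ENNReal.ofReal_le_ofReal (Real.exp_le_exp.2 (neg_le_neg ?_)))
  have m0 := half_ge hn
  have m0' := half_le' n
  have e1 : (((n / 2) * (n / 2) : ℕ) : ℝ) * p0 ≤ 1 := by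
    have : (((n / 2) * (n / 2) : ℕ) : ℝ) ≤ (n : ℝ) ^ 2 := by
      push_cast
      nlinarith
    exact (mul_le_mul_of_nonneg_right this hp0).trans hsm
  have f1 := half_le h0 h1 hp0 hp e1
  have g1 : (n : ℝ) ^ 2 * p0 / 18 ≤ 1 - (1 - p) ^ (n / 2 * (n / 2)) := by
    refine le_trans ?_ f1
    have : (n : ℝ) ^ 2 / 9 ≤ (((n / 2) * (n / 2) : ℕ) : ℝ) := by
      push_cast
      nlinarith
    nlinarith
  rw [card_lo]
  calc (n : ℝ) ^ 5 * p0 ^ 2 / 1296 ≤
        (n : ℝ) / 3 * ((n : ℝ) ^ 2 * p0 / 18 * ((n : ℝ) ^ 2 * p0 / 18)) := by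
        have : 0 ≤ (n : ℝ) ^ 5 * p0 ^ 2 := by positivity
        nlinarith
    _ ≤ ((n / 2 : ℕ) : ℝ) *
        ((1 - (1 - p) ^ (n / 2 * (n / 2))) * (1 - (1 - p) ^ (n / 2 * (n / 2)))) := by
        apply mul_le_mul m0 (mul_le_mul g1 g1 (by positivity) ?_) (by positivity) (by positivity)
        exact le_trans (by positivity) g1

theorem law_e (hn : 4 ≤ n) (h0 : 0 ≤ p) (h1 : p ≤ 1) (hp0 : 0 ≤ p0) (hp : p0 ≤ p)
    (e : Equiv.Perm (Fin 4)) (w1 : Fin n) :
    law n 4 p {η | ¬ ∃ z ∈ up n, ∃ x y : Fin n, η (![x, y, z, w1] ∘ e) = true} ≤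
      ENNReal.ofReal (Real.exp (-((n : ℝ) ^ 3 * p0 / 6))) := by
  classical
  have hn' : (4 : ℝ) ≤ n := by exact_mod_cast hn
  have hset : {η : V n 4 → Bool | ¬ ∃ z ∈ up n, ∃ x y : Fin n, η (![x, y, z, w1] ∘ e) = true} ⊆
      {η : V n 4 → Bool | ¬ ∃ x ∈ (up n ×ˢ ((univ : Finset (Fin n)) ×ˢ
        (univ : Finset (Fin n)))).image (fun q => ![q.2.1, q.2.2, q.1, w1] ∘ e), η x = true} := by
    intro η hη
    rintro ⟨u, hu, hu'⟩
    obtain ⟨⟨z, x, y⟩, hq, rfl⟩ := mem_image.1 hu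
    rw [mem_product] at hq
    exact hη ⟨z, hq.1, x, y, hu'⟩
  refine (measure_mono hset).trans ((law_none_open h0 h1 (m := (n / 2) * (n * n)) ?_).trans ?_)
  · rw [card_image_of_injective, card_product, card_product, card_up, card_univ,
      Fintype.card_fin]
    · gcongr
      omega
    · intro q q' hq
      have i0 := congrFun (comp_inj e hq) 0
      have i1 := congrFun (comp_inj e hq) 1
      have i2 := congrFun (comp_inj e hq) 2
      simp only [Matrix.cons_val, Matrix.cons_val_zero, Matrix.cons_val_one] at i0 i1 i2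
      exact Prod.ext i2 (Prod.ext i0 i1)
  · apply ENNReal.ofReal_le_ofReal
    apply Real.exp_le_exp.2
    apply neg_le_neg
    have m0 := half_ge hn
    have : (n : ℝ) ^ 3 / 6 ≤ (((n / 2) * (n * n) : ℕ) : ℝ) := by
      push_cast
      nlinarith [mul_nonneg (by positivity : (0 : ℝ) ≤ n * n) (by linarith : (0 : ℝ) ≤ ((n / 2 : ℕ) : ℝ) - n / 3)]
    have h3 : (n : ℝ) ^ 3 / 6 * p0 ≤ (((n / 2) * (n * n) : ℕ) : ℝ) * p :=
      mul_le_mul this hp hp0 (by positivity)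
    linarith

/-- the sprinkled configuration is good, up to a small probability -/
theorem law_good (hn : 4 ≤ n) (h0 : 0 ≤ p) (h1 : p ≤ 1) (hp0 : 0 ≤ p0) (hp : p0 ≤ p)
    (hsm : (n : ℝ) ^ 2 * p0 ≤ 1) (e : Equiv.Perm (Fin 4)) (z0 w0 w1 w2 : Fin n) :
    law n 4 p {η | ¬ Good (fun v => η (v ∘ e) = true) z0 w0 w1 w2} ≤
      ENNReal.ofReal (4 * Real.exp (-((n : ℝ) ^ 5 * p0 ^ 2 / 1296)) +
        (n + 2) * Real.exp (-((n : ℝ) ^ 3 * p0 / 6))) := by
  classical
  have ha := law_ab hn h0 h1 hp0 hp hsm e ((lo n).erase z0)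
    (erase_ge hn (by rw [card_lo]) z0) w0
  have hb := law_ab hn h0 h1 hp0 hp hsm e ((up n).erase z0)
    (erase_ge hn (by rw [card_up]; omega) z0) w0
  have hc := law_c hn h0 h1 hp0 hp e w0
  have hd1 := law_d hn h0 h1 hp0 hp hsm e w1
  have hd2 := law_d hn h0 h1 hp0 hp hsm e w2
  have he1 := law_e hn h0 h1 hp0 hp e w1
  have he2 := law_e hn h0 h1 hp0 hp e w2
  set A := {η : V n 4 → Bool | ¬ ∃ z ∈ (lo n).erase z0, ∃ y ∈ lo n,
    (∃ x ∈ lo n, η (![x, y, z, w0] ∘ e) = true) ∧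
      ∃ x ∈ up n, ∃ w ∈ univ.erase w0, η (![x, y, z, w] ∘ e) = true} with hA
  set B := {η : V n 4 → Bool | ¬ ∃ z ∈ (up n).erase z0, ∃ y ∈ lo n,
    (∃ x ∈ lo n, η (![x, y, z, w0] ∘ e) = true) ∧
      ∃ x ∈ up n, ∃ w ∈ univ.erase w0, η (![x, y, z, w] ∘ e) = true} with hB
  set C := {η : V n 4 → Bool | ¬ ∀ z : Fin n, ∃ x : Fin n, ∃ y ∈ up n, ∃ w ∈ univ.erase w0,
      η (![x, y, z, w] ∘ e) = true} with hC
  set D1 := {η : V n 4 → Bool | ¬ ∃ z ∈ lo n,
      (∃ x ∈ lo n, ∃ y ∈ lo n, η (![x, y, z, w1] ∘ e) = true) ∧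
      ∃ x ∈ up n, ∃ y ∈ up n, η (![x, y, z, w1] ∘ e) = true} with hD1
  set D2 := {η : V n 4 → Bool | ¬ ∃ z ∈ lo n,
      (∃ x ∈ lo n, ∃ y ∈ lo n, η (![x, y, z, w2] ∘ e) = true) ∧
      ∃ x ∈ up n, ∃ y ∈ up n, η (![x, y, z, w2] ∘ e) = true} with hD2
  set E1 := {η : V n 4 → Bool | ¬ ∃ z ∈ up n, ∃ x y : Fin n,
    η (![x, y, z, w1] ∘ e) = true} with hE1
  set E2 := {η : V n 4 → Bool | ¬ ∃ z ∈ up n, ∃ x y : Fin n,
    η (![x, y, z, w2] ∘ e) = true} with hE2
  have hsub : {η : V n 4 → Bool | ¬ Good (fun v => η (v ∘ e) = true) z0 w0 w1 w2} ⊆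
      A ∪ (B ∪ (C ∪ (D1 ∪ (D2 ∪ (E1 ∪ E2))))) := by
    intro η hη
    by_contra hcon
    simp only [Set.mem_union, not_or] at hcon
    obtain ⟨ca, cb, cc, cd1, cd2, ce1, ce2⟩ := hcon
    rw [hA, Set.mem_ofPred_eq, not_not] at ca
    rw [hB, Set.mem_ofPred_eq, not_not] at cb
    rw [hC, Set.mem_ofPred_eq, not_not] at cc
    rw [hD1, Set.mem_ofPred_eq, not_not] at cd1
    rw [hD2, Set.mem_ofPred_eq, not_not] at cd2
    rw [hE1, Set.mem_ofPred_eq, not_not] at ce1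
    rw [hE2, Set.mem_ofPred_eq, not_not] at ce2
    exact hη ⟨ca, cb, cc, cd1, ce1, cd2, ce2⟩
  have hX : (0 : ℝ) ≤ Real.exp (-((n : ℝ) ^ 5 * p0 ^ 2 / 1296)) := (Real.exp_pos _).le
  have hY : (0 : ℝ) ≤ Real.exp (-((n : ℝ) ^ 3 * p0 / 6)) := (Real.exp_pos _).le
  set X := Real.exp (-((n : ℝ) ^ 5 * p0 ^ 2 / 1296))
  set Y := Real.exp (-((n : ℝ) ^ 3 * p0 / 6))
  calc law n 4 p {η | ¬ Good (fun v => η (v ∘ e) = true) z0 w0 w1 w2}
      ≤ law n 4 p (A ∪ (B ∪ (C ∪ (D1 ∪ (D2 ∪ (E1 ∪ E2)))))) := measure_mono hsub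
    _ ≤ law n 4 p A + (law n 4 p B + (law n 4 p C + (law n 4 p D1 + (law n 4 p D2 +
        (law n 4 p E1 + law n 4 p E2))))) := by
        refine (measure_union_le _ _).trans (add_le_add le_rfl ?_)
        refine (measure_union_le _ _).trans (add_le_add le_rfl ?_)
        refine (measure_union_le _ _).trans (add_le_add le_rfl ?_)
        refine (measure_union_le _ _).trans (add_le_add le_rfl ?_)
        refine (measure_union_le _ _).trans (add_le_add le_rfl ?_)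
        exact measure_union_le _ _
    _ ≤ ENNReal.ofReal X + (ENNReal.ofReal X + (ENNReal.ofReal (n * Y) + (ENNReal.ofReal X +
        (ENNReal.ofReal X + (ENNReal.ofReal Y + ENNReal.ofReal Y))))) := by
        gcongr
    _ = ENNReal.ofReal (X + (X + (n * Y + (X + (X + (Y + Y)))))) := by
        rw [ENNReal.ofReal_add (by positivity) (by positivity),
          ENNReal.ofReal_add (by positivity) (by positivity),
          ENNReal.ofReal_add (by positivity) (by positivity),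
          ENNReal.ofReal_add (by positivity) (by positivity),
          ENNReal.ofReal_add (by positivity) (by positivity),
          ENNReal.ofReal_add (by positivity) (by positivity)]
    _ = _ := by
        congr 1
        ring

end Pool.Agent.T6.H62.Ham
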