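import Mathlib
import Pool.Agent.T6.H62.HamGood

/-!
Bootstrap percolation with threshold three on the four-dimensional Hamming torus: the critical
values for an open plane and for the whole torus are comparable.
-/

set_option autoImplicit false

open Finset MeasureTheory ProbabilityTheory Filter Topology
open scoped ENNReal

namespace Pool.Agent.T6.H62.Ham

open Pool.Agent.R958.Ham

section lower

variable {n d : ℕ}

/-- the neighbours of a vertex -/
def nb (v : V n d) : Finset (V n d) := univ.filter fun w => hammingDist v w = 1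

lemma card_nb (v : V n d) : (nb v).card ≤ d * n := by
  classical
  have hsub : nb v ⊆ ((univ : Finset (Fin d)) ×ˢ (univ : Finset (Fin n))).image
      (fun q => Function.update v q.1 q.2) := by
    intro w hw
    have hw' : hammingDist v w = 1 := (mem_filter.1 hw).2
    have hne : v ≠ w := by
      rintro rfl
      simp at hw'
    obtain ⟨k, hk⟩ := Function.ne_iff.1 hne
    rw [mem_image]
    refine ⟨(k, w k), by simp, ?_⟩
    funext l
    by_cases hl : l = k
    · rw [hl, Function.update_self]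
    · rw [Function.update_of_ne hl]
      by_contra hvl
      exact hl (dist_one_eq hw' hk hvl).symm
  calc (nb v).card ≤ _ := card_le_card hsub
    _ ≤ ((univ : Finset (Fin d)) ×ˢ (univ : Finset (Fin n))).card := card_image_le
    _ = d * n := by simp

/-- if no vertex has three open neighbours nothing happens -/
lemma final_frozen {ω : V n d → Bool}
    (h : ∀ v, (univ.filter fun w => hammingDist v w = 1 ∧ ω w = true).card < 3) {v : V n d}
    (hv : FinalOpen 3 ω v) : ω v = true := by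
  have hst : step 3 ω = ω := by
    funext v
    unfold step
    have := h v
    rw [decide_eq_false (not_le.2 this), Bool.or_false]
  obtain ⟨j, hj⟩ := hv
  have : (step 3)^[j] ω = ω := by
    induction j with
    | zero => rfl
    | succ j ih =>
      rw [Function.iterate_succ_apply, hst]
      rw [Function.iterate_succ_apply, hst] at hj
      exact ih hj
  rw [this] at hj
  exact hj

/-- an open plane needs a vertex with three open neighbours -/
lemma exists_nucleus (hn : 3 ≤ n) {ω : V n d → Bool} (hω : SubgraphOpen 3 2 ω) :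
    ∃ v : V n d, ∃ K ∈ (nb v).powersetCard 3, ∀ x ∈ K, ω x = true := by
  classical
  obtain ⟨v, hv⟩ : ∃ v : V n d,
      3 ≤ (univ.filter fun w => hammingDist v w = 1 ∧ ω w = true).card := by
    by_contra hcon
    push Not at hcon
    obtain ⟨J, hJ, a, ha⟩ := hω
    obtain ⟨k0, k1, hk, rfl⟩ := card_eq_two.1 hJ
    have hin : ∀ r c, ω (pt a k0 k1 r c) = true := by
      intro r c
      apply final_frozen hcon
      apply ha
      intro k hk'
      simp only [mem_insert, mem_singleton, not_or] at hk'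
      simp [pt, hk'.1, hk'.2]
    have hlt := hcon (pt a k0 k1 ⟨0, by omega⟩ ⟨0, by omega⟩)
    have c1 : (⟨1, by omega⟩ : Fin n) ≠ ⟨0, by omega⟩ := by simp
    have c2 : (⟨2, by omega⟩ : Fin n) ≠ ⟨0, by omega⟩ := by simp
    have c12 : (⟨1, by omega⟩ : Fin n) ≠ ⟨2, by omega⟩ := by simp
    have hsub : ({pt a k0 k1 ⟨0, by omega⟩ ⟨1, by omega⟩, pt a k0 k1 ⟨0, by omega⟩ ⟨2, by omega⟩,
        pt a k0 k1 ⟨1, by omega⟩ ⟨0, by omega⟩} : Finset (V n d)) ⊆
        univ.filter fun w => hammingDist (pt a k0 k1 ⟨0, by omega⟩ ⟨0, by omega⟩) w = 1 ∧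
          ω w = true := by
      intro x hx
      simp only [mem_insert, mem_singleton] at hx
      rw [mem_filter]
      rcases hx with rfl | rfl | rfl
      · exact ⟨mem_univ _, dist_col c1.symm, hin _ _⟩
      · exact ⟨mem_univ _, dist_col c2.symm, hin _ _⟩
      · exact ⟨mem_univ _, dist_row hk c1.symm, hin _ _⟩
    have h3 : ({pt a k0 k1 ⟨0, by omega⟩ ⟨1, by omega⟩, pt a k0 k1 ⟨0, by omega⟩ ⟨2, by omega⟩,
        pt a k0 k1 ⟨1, by omega⟩ ⟨0, by omega⟩} : Finset (V n d)).card = 3 :=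
      card_eq_three.2 ⟨_, _, _, pt_ne_col c12, pt_ne_col c1, pt_ne_col c2, rfl⟩
    have hle := card_le_card hsub
    rw [h3] at hle
    refine absurd hlt (not_lt.2 ?_)
    convert hle
  obtain ⟨K, hK, hK3⟩ := exists_subset_card_eq hv
  refine ⟨v, K, ?_, ?_⟩
  · rw [mem_powersetCard]
    refine ⟨?_, hK3⟩
    intro x hx
    exact mem_filter.2 ⟨mem_univ _, (mem_filter.1 (hK hx)).2.1⟩
  · intro x hx
    exact (mem_filter.1 (hK hx)).2.2

theorem law_plane_le (hn : 3 ≤ n) {p : ℝ} (h0 : 0 ≤ p) (h1 : p ≤ 1) :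
    law n d p {ω | SubgraphOpen 3 2 ω} ≤ ENNReal.ofReal ((n : ℝ) ^ d * (d * n) ^ 3 * p ^ 3) := by
  classical
  have hsub : {ω : V n d → Bool | SubgraphOpen 3 2 ω} ⊆
      ⋃ v : V n d, ⋃ K ∈ (nb v).powersetCard 3, {ω | ∀ x ∈ K, ω x = true} := by
    intro ω hω
    obtain ⟨v, K, hK, h⟩ := exists_nucleus hn hω
    rw [Set.mem_iUnion]
    refine ⟨v, ?_⟩
    rw [Set.mem_iUnion₂]
    exact ⟨K, hK, h⟩
  refine (measure_mono hsub).trans ((measure_iUnion_fintype_le _ _).trans ?_)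
  calc ∑ v : V n d, law n d p (⋃ K ∈ (nb v).powersetCard 3, {ω | ∀ x ∈ K, ω x = true})
      ≤ ∑ v : V n d, ∑ K ∈ (nb v).powersetCard 3, law n d p {ω | ∀ x ∈ K, ω x = true} :=
        sum_le_sum fun v _ => measure_biUnion_finset_le _ _
    _ = ∑ v : V n d, ∑ K ∈ (nb v).powersetCard 3, ENNReal.ofReal p ^ 3 := by
        refine sum_congr rfl fun v _ => sum_congr rfl fun K hK => ?_
        rw [law_all h0 h1, (mem_powersetCard.1 hK).2]
    _ ≤ ∑ _v : V n d, ((d * n : ℕ) : ℝ≥0∞) ^ 3 * ENNReal.ofReal p ^ 3 := by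
        refine sum_le_sum fun v _ => ?_
        rw [sum_const, nsmul_eq_mul, card_powersetCard]
        gcongr
        have : (nb v).card.choose 3 ≤ (d * n) ^ 3 :=
          (Nat.choose_le_pow _ _).trans (Nat.pow_le_pow_left (card_nb v) 3)
        exact_mod_cast this
    _ = _ := by
        rw [sum_const, nsmul_eq_mul, card_univ, Fintype.card_fun, Fintype.card_fin,
          Fintype.card_fin, ENNReal.ofReal_mul (by positivity), ENNReal.ofReal_mul (by positivity),
          ENNReal.ofReal_pow (by positivity), ENNReal.ofReal_pow (by positivity),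
          ENNReal.ofReal_pow (by positivity), ENNReal.ofReal_mul (by positivity),
          ENNReal.ofReal_natCast, ENNReal.ofReal_natCast]
        push_cast
        ring

end lower

variable {n : ℕ}

lemma crit_lower (hn : 3 ≤ n) {p : ℝ} (hp : IsCritical n 4 3 2 p) :
    1 ≤ 128 * (n : ℝ) ^ 7 * p ^ 3 := by
  have h := law_plane_le (d := 4) hn hp.1 hp.2.1
  rw [hp.2.2] at h
  have h2 : (1 / 2 : ℝ) ≤ (n : ℝ) ^ 4 * ((4 : ℕ) * n) ^ 3 * p ^ 3 := by
    have h3 : ENNReal.ofReal (1 / 2) ≤ ENNReal.ofReal ((n : ℝ) ^ 4 * ((4 : ℕ) * n) ^ 3 * p ^ 3) := by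
      refine le_trans (le_of_eq ?_) h
      rw [ENNReal.ofReal_div_of_pos (by norm_num)]
      simp
    rwa [ENNReal.ofReal_le_ofReal_iff (by have := hp.1; positivity)] at h3
  have e : (n : ℝ) ^ 4 * ((4 : ℕ) * n) ^ 3 * p ^ 3 = 64 * (n : ℝ) ^ 7 * p ^ 3 := by
    push_cast
    ring
  rw [e] at h2
  linarith

/-- two independent copies open a plane with probability at least three quarters -/
lemma two_copies {d : ℕ} {θ i : ℕ} {p : ℝ} (hp : IsCritical n d θ i p) :
    ENNReal.ofReal (3 / 4) ≤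
      law n d (1 - (1 - p) * (1 - p)) {ω | SubgraphOpen θ i ω} := by
  have hprob := law_prob (n := n) (d := d) hp.1 hp.2.1
  set A : Set (V n d → Bool) := {ω | SubgraphOpen θ i ω} with hA
  have hAi : Incr A := incr_sub θ i
  rw [law_or_apply hp.1 hp.2.1 hp.1 hp.2.1, ← lintegral_add_compl _ (Set.toFinite A).measurableSet]
  have h3 : law n d p A ≤ ∫⁻ ω in A, law n d p {η | orc ω η ∈ A} ∂(law n d p) := by
    calc law n d p A = ∫⁻ ω in A, 1 ∂(law n d p) := by rw [setLIntegral_const, one_mul]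
      _ ≤ _ := setLIntegral_mono (measurable_of_countable _) (fun ω hω => by
        have : {η | orc ω η ∈ A} = Set.univ := by
          ext η
          simp only [Set.mem_ofPred_eq, Set.mem_univ, iff_true]
          exact hAi ω _ (fun x hx => by simp [orc, hx]) hω
        rw [this, measure_univ])
  have h4 : law n d p A * law n d p Aᶜ ≤
      ∫⁻ ω in Aᶜ, law n d p {η | orc ω η ∈ A} ∂(law n d p) := by
    calc law n d p A * law n d p Aᶜ = ∫⁻ ω in Aᶜ, law n d p A ∂(law n d p) := by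
          rw [setLIntegral_const]
      _ ≤ _ := setLIntegral_mono (measurable_of_countable _) (fun ω _ => by
        apply measure_mono
        intro η hη
        refine hAi _ _ ?_ hη
        intro x hx
        simp [orc, hx])
  refine le_trans ?_ (add_le_add h3 h4)
  rw [prob_compl_eq_one_sub (Set.toFinite A).measurableSet, hp.2.2]
  have e1 : (1 / 2 : ℝ≥0∞) = ENNReal.ofReal (1 / 2) := by
    rw [ENNReal.ofReal_div_of_pos (by norm_num)]
    simp
  rw [e1, ← ENNReal.ofReal_one, ← ENNReal.ofReal_sub _ (by norm_num), ← ENNReal.ofReal_mul (by norm_num),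
    ← ENNReal.ofReal_add (by norm_num) (by norm_num)]
  apply ENNReal.ofReal_le_ofReal
  norm_num

theorem crit_upper (hn : 4 ≤ n) {p p0 q : ℝ} (hp : IsCritical n 4 3 2 p)
    (hq : IsCritical n 4 3 4 q) (hp0 : 0 ≤ p0) (hpp : p0 ≤ p) (hsm : (n : ℝ) ^ 2 * p0 ≤ 1)
    (hδ : 4 * Real.exp (-((n : ℝ) ^ 5 * p0 ^ 2 / 1296)) +
        (n + 2) * Real.exp (-((n : ℝ) ^ 3 * p0 / 6)) < 1 / 3) : q ≤ 3 * p := by
  set δ := 4 * Real.exp (-((n : ℝ) ^ 5 * p0 ^ 2 / 1296)) +
        (n + 2) * Real.exp (-((n : ℝ) ^ 3 * p0 / 6)) with hδdef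
  have hδ0 : 0 ≤ δ := by positivity
  have h0 := hp.1
  have h1 := hp.2.1
  have hprob := law_prob (n := n) (d := 4) h0 h1
  have hs0 : 0 ≤ 1 - (1 - p) * (1 - p) := by nlinarith
  have hs1 : 1 - (1 - p) * (1 - p) ≤ 1 := by nlinarith [mul_self_nonneg (1 - p)]
  have key : ∀ ω ∈ {ω : V n 4 → Bool | SubgraphOpen 3 2 ω},
      ENNReal.ofReal (1 - δ) ≤ law n 4 p {η | orc ω η ∈ {ω | SubgraphOpen 3 4 ω}} := by
    rintro ω ⟨J, hJ, a, ha⟩
    obtain ⟨e, he⟩ := exists_perm J hJ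
    obtain ⟨w1, hw1⟩ : ∃ w1 : Fin n, w1 ≠ a (e.symm 3) := by
      have : Nontrivial (Fin n) := Fin.nontrivial_iff_two_le.2 (by omega)
      exact exists_ne _
    obtain ⟨w2, hw2⟩ : ∃ w2 : Fin n, w2 ∉ ({a (e.symm 3), w1} : Finset (Fin n)) := by
      by_contra hcon
      push Not at hcon
      have h2 : (univ : Finset (Fin n)) ⊆ {a (e.symm 3), w1} := fun x _ => hcon x
      have h3 := card_le_card h2
      rw [card_univ, Fintype.card_fin] at h3
      have h4 : ({a (e.symm 3), w1} : Finset (Fin n)).card ≤ 2 := card_le_two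
      omega
    simp only [mem_insert, mem_singleton, not_or] at hw2
    have hgood := law_good hn h0 h1 hp0 hpp hsm e (a (e.symm 2)) (a (e.symm 3)) w1 w2
    rw [← hδdef] at hgood
    have hsub : {η : V n 4 → Bool | ¬ Good (fun v => η (v ∘ e) = true) (a (e.symm 2))
        (a (e.symm 3)) w1 w2}ᶜ ⊆ {η | orc ω η ∈ {ω | SubgraphOpen 3 4 ω}} := by
      intro η hη
      rw [Set.mem_compl_iff, Set.mem_ofPred_eq, not_not] at hη
      exact full_of_good e he ha
        (fun v hv => final_mono (fun x hx => by simp [hx]) hv) hw1 hw2.1 (Ne.symm hw2.2) hη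
    refine le_trans ?_ (measure_mono hsub)
    rw [prob_compl_eq_one_sub (Set.toFinite _).measurableSet, ENNReal.ofReal_sub _ hδ0,
      ENNReal.ofReal_one]
    exact tsub_le_tsub_left hgood 1
  have h5 := law_sprinkle (n := n) (d := 4) hs0 hs1 h0 h1 key
  have h6 := two_copies hp
  set r := 1 - (1 - (1 - (1 - p) * (1 - p))) * (1 - p) with hr
  have hr1 : r ≤ 1 := by
    rw [hr]
    nlinarith [mul_nonneg (mul_self_nonneg (1 - p)) (by linarith : 0 ≤ 1 - p)]
  have hr3 : r ≤ 3 * p := by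
    have : r = 3 * p - p ^ 2 * (3 - p) := by rw [hr]; ring
    rw [this]
    nlinarith [mul_nonneg (sq_nonneg p) (by linarith : 0 ≤ 3 - p)]
  have h7 : ENNReal.ofReal (1 / 2) < law n 4 r {ω | SubgraphOpen 3 4 ω} := by
    calc ENNReal.ofReal (1 / 2) < ENNReal.ofReal ((1 - δ) * (3 / 4)) := by
          rw [ENNReal.ofReal_lt_ofReal_iff (by nlinarith)]
          nlinarith
      _ = ENNReal.ofReal (1 - δ) * ENNReal.ofReal (3 / 4) := ENNReal.ofReal_mul (by linarith)
      _ ≤ ENNReal.ofReal (1 - δ) * law n 4 (1 - (1 - p) * (1 - p)) {ω | SubgraphOpen 3 2 ω} := by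
          gcongr
      _ ≤ _ := h5
  refine le_trans ?_ hr3
  by_contra hlt
  rw [not_le] at hlt
  have hr0 : 0 ≤ r := by
    have : r = p * (3 - 3 * p + p ^ 2) := by rw [hr]; ring
    rw [this]
    apply mul_nonneg h0
    nlinarith [sq_nonneg p]
  have h8 := law_mono (incr_sub (n := n) (d := 4) 3 4) hr0 hlt.le hq.2.1
  rw [hq.2.2] at h8
  have e1 : (1 / 2 : ℝ≥0∞) = ENNReal.ofReal (1 / 2) := by
    rw [ENNReal.ofReal_div_of_pos (by norm_num)]
    simp
  rw [e1] at h8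
  exact absurd (lt_of_lt_of_le h7 h8) (lt_irrefl _)

/-- numerical estimates, for large `n` -/
lemma eventually_small : ∀ᶠ n : ℕ in atTop, 4 ≤ n ∧ 0 < (n : ℝ) ^ (-(12 / 5) : ℝ) ∧
    (n : ℝ) ^ 2 * (n : ℝ) ^ (-(12 / 5) : ℝ) ≤ 1 ∧
    128 * (n : ℝ) ^ 7 * ((n : ℝ) ^ (-(12 / 5) : ℝ)) ^ 3 < 1 ∧
    4 * Real.exp (-((n : ℝ) ^ 5 * ((n : ℝ) ^ (-(12 / 5) : ℝ)) ^ 2 / 1296)) +
      (n + 2) * Real.exp (-((n : ℝ) ^ 3 * (n : ℝ) ^ (-(12 / 5) : ℝ) / 6)) < 1 / 3 := by
  have t1 : Tendsto (fun n : ℕ => (n : ℝ) ^ (1 / 5 : ℝ)) atTop atTop :=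
    (tendsto_rpow_atTop (by norm_num)).comp tendsto_natCast_atTop_atTop
  have t2 : Tendsto (fun n : ℕ => 4 * Real.exp (-((n : ℝ) ^ (1 / 5 : ℝ) / 1296))) atTop (𝓝 0) := by
    have : Tendsto (fun n : ℕ => Real.exp (-((n : ℝ) ^ (1 / 5 : ℝ) / 1296))) atTop (𝓝 0) := by
      apply Real.tendsto_exp_neg_atTop_nhds_zero.comp
      exact t1.atTop_div_const (by norm_num)
    simpa using this.const_mul 4
  have t3 : Tendsto (fun n : ℕ => ((n : ℝ) + 2) * Real.exp (-((n : ℝ) ^ (3 / 5 : ℝ) / 6))) atTop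
      (𝓝 0) := by
    -- `x = y ^ (5/3)` with `y = n ^ (3/5)`
    have a1 : Tendsto (fun x : ℝ => x ^ (5 / 3 : ℝ) * Real.exp (-(1 / 6) * x)) atTop (𝓝 0) :=
      tendsto_rpow_mul_exp_neg_mul_atTop_nhds_zero _ _ (by norm_num)
    have a2 : Tendsto (fun n : ℕ => (n : ℝ) ^ (3 / 5 : ℝ)) atTop atTop :=
      (tendsto_rpow_atTop (by norm_num)).comp tendsto_natCast_atTop_atTop
    have a3 := a1.comp a2
    have a4 : Tendsto (fun x : ℝ => x ^ (0 : ℝ) * Real.exp (-(1 / 6) * x)) atTop (𝓝 0) :=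
      tendsto_rpow_mul_exp_neg_mul_atTop_nhds_zero _ _ (by norm_num)
    have a5 := (a4.comp a2).const_mul 2
    have a6 := a3.add a5
    simp only [mul_zero, add_zero] at a6
    refine a6.congr fun n => ?_
    simp only [Function.comp_apply, Real.rpow_zero, one_mul]
    rw [← Real.rpow_mul (Nat.cast_nonneg n)]
    norm_num
    ring_nf
  have t4 : Tendsto (fun n : ℕ => 4 * Real.exp (-((n : ℝ) ^ (1 / 5 : ℝ) / 1296)) +
      ((n : ℝ) + 2) * Real.exp (-((n : ℝ) ^ (3 / 5 : ℝ) / 6))) atTop (𝓝 0) := by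
    simpa using t2.add t3
  filter_upwards [eventually_ge_atTop 4, t4.eventually_lt_const (by norm_num : (0 : ℝ) < 1 / 3),
    t1.eventually_gt_atTop 128] with n hn h1 h2
  have hn0 : (0 : ℝ) < n := by exact_mod_cast (by omega : 0 < n)
  have hn1 : (1 : ℝ) ≤ n := by exact_mod_cast (by omega : 1 ≤ n)
  refine ⟨hn, Real.rpow_pos_of_pos hn0 _, ?_, ?_, ?_⟩
  · rw [← Real.rpow_natCast, ← Real.rpow_add hn0]
    apply Real.rpow_le_one_of_one_le_of_nonpos hn1
    norm_num
  · have e : 128 * (n : ℝ) ^ 7 * ((n : ℝ) ^ (-(12 / 5) : ℝ)) ^ 3 = 128 / (n : ℝ) ^ (1 / 5 : ℝ) := by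
      have e0 : (n : ℝ) ^ 7 * ((n : ℝ) ^ (-(12 / 5) : ℝ)) ^ 3 = ((n : ℝ) ^ (1 / 5 : ℝ))⁻¹ := by
        rw [← Real.rpow_neg hn0.le, ← Real.rpow_natCast, ← Real.rpow_natCast,
          ← Real.rpow_mul hn0.le, ← Real.rpow_add hn0]
        norm_num
      rw [mul_assoc, e0]
      exact (div_eq_mul_inv _ _).symm
    rw [e, div_lt_one (by positivity)]
    exact h2
  · have e1 : (n : ℝ) ^ 5 * ((n : ℝ) ^ (-(12 / 5) : ℝ)) ^ 2 = (n : ℝ) ^ (1 / 5 : ℝ) := by
      rw [← Real.rpow_natCast, ← Real.rpow_natCast, ← Real.rpow_mul hn0.le, ← Real.rpow_add hn0]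
      norm_num
    have e2 : (n : ℝ) ^ 3 * (n : ℝ) ^ (-(12 / 5) : ℝ) = (n : ℝ) ^ (3 / 5 : ℝ) := by
      rw [← Real.rpow_natCast, ← Real.rpow_add hn0]
      norm_num
    rw [e1, e2]
    exact h1

theorem comparable : ∀ᶠ n : ℕ in atTop, (∃! p, IsCritical n 4 3 2 p) ∧
    (∃! q, IsCritical n 4 3 4 q) ∧ ∀ p q, IsCritical n 4 3 2 p → IsCritical n 4 3 4 q →
      0 < p ∧ p ≤ q ∧ q ≤ 3 * p := by
  filter_upwards [eventually_small] with n hn
  obtain ⟨h4, hp0, hsm, hlow, hδ⟩ := hn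
  have a : V n 4 := fun _ => ⟨0, by omega⟩
  obtain ⟨p, hp⟩ := exists_critical (n := n) (d := 4) (θ := 3) (i := 2) (by norm_num) (by norm_num)
    (by omega)
  obtain ⟨q, hq⟩ := exists_critical (n := n) (d := 4) (θ := 3) (i := 4) (by norm_num) (by norm_num)
    (by omega)
  refine ⟨⟨p, hp, fun p' hp' => crit_unique (by norm_num) a hp' hp⟩,
    ⟨q, hq, fun q' hq' => crit_unique (by norm_num) a hq' hq⟩, ?_⟩
  intro p q hp hq
  have hpp : (n : ℝ) ^ (-(12 / 5) : ℝ) ≤ p := by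
    by_contra hcon
    rw [not_le] at hcon
    have h1 := crit_lower (by omega) hp
    have h2 : p ^ 3 ≤ ((n : ℝ) ^ (-(12 / 5) : ℝ)) ^ 3 := pow_le_pow_left₀ hp.1 hcon.le 3
    have h3 : 128 * (n : ℝ) ^ 7 * p ^ 3 ≤ 128 * (n : ℝ) ^ 7 * ((n : ℝ) ^ (-(12 / 5) : ℝ)) ^ 3 :=
      mul_le_mul_of_nonneg_left h2 (by positivity)
    linarith
  exact ⟨lt_of_lt_of_le hp0 hpp, crit_le (by norm_num) le_rfl a hp hq,
    crit_upper h4 hp hq hp0.le hpp hsm hδ⟩

theorem no_gap (p q : ℕ → ℝ) (hp : ∀ᶠ n : ℕ in atTop, IsCritical n 4 3 2 (p n))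
    (hq : ∀ᶠ n : ℕ in atTop, IsCritical n 4 3 4 (q n)) :
    Tendsto (fun n : ℕ => Real.logb n (q n) - Real.logb n (p n)) atTop (𝓝 0) := by
  have hlog : Tendsto (fun n : ℕ => Real.log 3 / Real.log (n : ℝ)) atTop (𝓝 0) :=
    (Real.tendsto_log_atTop.comp tendsto_natCast_atTop_atTop).const_div_atTop _
  refine tendsto_of_tendsto_of_tendsto_of_le_of_le' tendsto_const_nhds hlog ?_ ?_
  · filter_upwards [comparable, hp, hq, eventually_ge_atTop 2] with n hn hpn hqn hn2
    obtain ⟨h0, h1, _⟩ := hn.2.2 _ _ hpn hqn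
    have : (1 : ℝ) < n := by exact_mod_cast hn2
    have := Real.logb_le_logb_of_le this h0 h1
    linarith
  · filter_upwards [comparable, hp, hq, eventually_ge_atTop 2] with n hn hpn hqn hn2
    obtain ⟨h0, h1, h3⟩ := hn.2.2 _ _ hpn hqn
    have hn1 : (1 : ℝ) < n := by exact_mod_cast hn2
    have h4 := Real.logb_le_logb_of_le hn1 (by linarith : 0 < q n) h3
    rw [Real.logb_mul (by norm_num) h0.ne'] at h4
    have : Real.logb n 3 = Real.log 3 / Real.log n := rfl
    linarith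

end Pool.Agent.T6.H62.Ham
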